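import Mathlib
import Pool.Agent.Helper5.UP.Lim

set_option autoImplicit false

/-!
# The Hankel kernel against functions of polynomial growth in `1 + r ^ 2`
-/

open MeasureTheory Set Complex Filter Topology

namespace Pool.Agent.Helper87.VP

open Pool.Agent.Helper5.UP
open Pool.Agent.Helper10.UP (HS)

theorem int_poly {A C : ℝ} (k : ℕ) {h : ℝ → ℂ} (hm : AEStronglyMeasurable h volume)
    (hb : ∀ r, ‖h r‖ ≤ C * (1 + r ^ 2) ^ k) : Integrable fun r : ℝ => wker A r * h r := by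
  refine Integrable.mono' (integrable_poly_gauss A C k)
    ((continuous_wker A).aestronglyMeasurable.mul hm) (Filter.Eventually.of_forall fun r => ?_)
  rw [norm_mul]
  calc ‖wker A r‖ * ‖h r‖
      ≤ Real.exp (Real.exp A * (1 - r ^ 2)) * (C * (1 + r ^ 2) ^ k) :=
        mul_le_mul (norm_wker_le A r) (hb r) (norm_nonneg _) (Real.exp_pos _).le
    _ = _ := by ring

theorem decay_poly {G : ℂ → ℂ} {C A : ℝ} (k : ℕ)
    (hG : ∀ A' ∈ Icc 1 A, ∀ r : ℝ, ‖G ((A' : ℂ) + gw r)‖ ≤ C * (1 + r ^ 2) ^ k) :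
    ∀ ε > 0, ∃ R0 : ℝ, ∀ r : ℝ, R0 ≤ |r| → ∀ A' ∈ Icc 1 A,
      ‖cexp (cexp ((A' : ℂ) + gw r)) * G ((A' : ℂ) + gw r)‖ ≤ ε := by
  intro ε hε
  have hlim : Tendsto (fun s : ℝ => C * Real.exp 2 * (s ^ k * Real.exp (-s))) atTop
      (𝓝 (C * Real.exp 2 * 0)) :=
    (Real.tendsto_pow_mul_exp_neg_atTop_nhds_zero k).const_mul _
  rw [mul_zero] at hlim
  obtain ⟨s0, hs0⟩ := eventually_atTop.mp (hlim.eventually (ge_mem_nhds hε))
  refine ⟨max 1 s0, fun r hr A' hA' => ?_⟩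
  have hr1 : 1 ≤ |r| := (le_max_left _ _).trans hr
  have hr2 : s0 ≤ |r| := (le_max_right _ _).trans hr
  have hsq : |r| ≤ r ^ 2 := by
    rw [← sq_abs]
    nlinarith
  have h1 := hs0 (1 + r ^ 2) (by linarith)
  refine le_trans ?_ h1
  rw [norm_mul, norm_exp_exp]
  have h2 : Real.exp (Real.exp A' * (1 - r ^ 2)) ≤ Real.exp 2 * Real.exp (-(1 + r ^ 2)) := by
    rw [← Real.exp_add]
    refine Real.exp_le_exp.mpr ?_
    have h3 : 1 ≤ Real.exp A' := Real.one_le_exp (by linarith [hA'.1])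
    nlinarith
  calc Real.exp (Real.exp A' * (1 - r ^ 2)) * ‖G ((A' : ℂ) + gw r)‖
      ≤ (Real.exp 2 * Real.exp (-(1 + r ^ 2))) * (C * (1 + r ^ 2) ^ k) :=
        mul_le_mul h2 (hG A' hA' r) (norm_nonneg _) (by positivity)
    _ = _ := by ring

/-- Independence of the parabola. -/
theorem shift_poly {G : ℂ → ℂ} (hG : DifferentiableOn ℂ G HS) {C A : ℝ} (k : ℕ)
    (hA : 1 ≤ A)
    (hb : ∀ A' ∈ Icc 1 A, ∀ r : ℝ, ‖G ((A' : ℂ) + gw r)‖ ≤ C * (1 + r ^ 2) ^ k) :
    ∫ r : ℝ, wker A r * G ((A : ℂ) + gw r) = ∫ r : ℝ, wker 1 r * G (((1 : ℝ) : ℂ) + gw r) := by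
  have hcont : ∀ A' : ℝ, 1 ≤ A' → Continuous fun r : ℝ => G ((A' : ℂ) + gw r) := fun A' hA' =>
    hG.continuousOn.comp_continuous (continuous_const.add continuous_gw) (fun r => mem_HS hA' r)
  have hI : ∀ A' ∈ Icc 1 A, Integrable fun r : ℝ => wker A' r * G ((A' : ℂ) + gw r) :=
    fun A' hA' => int_poly k (hcont A' hA'.1).aestronglyMeasurable (hb A' hA')
  have hre : ∀ A' : ℝ, (fun r : ℝ => cexp (cexp ((A' : ℂ) + gw r)) * G ((A' : ℂ) + gw r)
      * (1 + I * r)⁻¹) = fun r : ℝ => wker A' r * G ((A' : ℂ) + gw r) := by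
    intro A'
    funext r
    rw [wker]
    ring
  have h1 := shift (f := fun w => cexp (cexp w) * G w) isOpen_HS
    ((Complex.differentiable_exp.comp Complex.differentiable_exp).differentiableOn.mul hG)
    hA (fun A' hA' r => mem_HS hA'.1 r) (by
      have := hI 1 ⟨le_rfl, hA⟩
      rw [← hre 1] at this
      exact this) (by
      have := hI A ⟨hA, le_rfl⟩
      rw [← hre A] at this
      exact this)
    (decay_poly k hb)
  have h2 := hre 1
  have h3 := hre A
  calc ∫ r : ℝ, wker A r * G ((A : ℂ) + gw r)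
      = ∫ r : ℝ, cexp (cexp ((A : ℂ) + gw r)) * G ((A : ℂ) + gw r) * (1 + I * r)⁻¹ := by rw [h3]
    _ = ∫ r : ℝ, cexp (cexp (((1 : ℝ) : ℂ) + gw r)) * G (((1 : ℝ) : ℂ) + gw r)
          * (1 + I * r)⁻¹ := h1.symm
    _ = _ := by rw [h2]

theorem norm_exp_w (ν : ℂ) (A r : ℝ) : ‖cexp (ν * ((A : ℂ) + gw r))‖
    ≤ Real.exp (|ν.re| * |A| + |ν.im| * Real.pi) * (1 + r ^ 2) ^ ⌈|ν.re|⌉₊ := by
  rw [Complex.norm_exp]
  have h1 : (ν * ((A : ℂ) + gw r)).re = ν.re * (A + Real.log (1 + r ^ 2)) - ν.im * (gw r).im := by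
    rw [mul_re, add_re, add_im, ofReal_re, ofReal_im, gw_re, zero_add]
  have hl : 0 ≤ Real.log (1 + r ^ 2) := Real.log_nonneg (by nlinarith [sq_nonneg r])
  have h2 : ν.re * (A + Real.log (1 + r ^ 2)) - ν.im * (gw r).im ≤
      (|ν.re| * |A| + |ν.im| * Real.pi) + ⌈|ν.re|⌉₊ * Real.log (1 + r ^ 2) := by
    have e1 : ν.re * A ≤ |ν.re| * |A| := by
      rw [← abs_mul]; exact le_abs_self _
    have e2 : ν.re * Real.log (1 + r ^ 2) ≤ ⌈|ν.re|⌉₊ * Real.log (1 + r ^ 2) :=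
      mul_le_mul_of_nonneg_right ((le_abs_self _).trans (Nat.le_ceil _)) hl
    have e3 : -(ν.im * (gw r).im) ≤ |ν.im| * Real.pi := by
      refine (neg_le_abs _).trans ?_
      rw [abs_mul]
      exact mul_le_mul_of_nonneg_left (gw_im_lt r).le (abs_nonneg _)
    linarith
  rw [h1]
  refine (Real.exp_le_exp.mpr h2).trans (le_of_eq ?_)
  rw [Real.exp_add, mul_comm (⌈|ν.re|⌉₊ : ℝ), Real.exp_mul, Real.exp_log (by positivity),
    Real.rpow_natCast]

theorem continuous_exp_w (ν : ℂ) (A : ℝ) : Continuous fun r : ℝ => cexp (ν * ((A : ℂ) + gw r)) := by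
  have := continuous_gw
  fun_prop

theorem integrable_exp_w (ν : ℂ) (A : ℝ) :
    Integrable fun r : ℝ => wker A r * cexp (ν * ((A : ℂ) + gw r)) :=
  int_poly _ (continuous_exp_w ν A).aestronglyMeasurable (norm_exp_w ν A)

/-- The recursion. -/
theorem hankel_rec (ν : ℂ) (A : ℝ) :
    ∫ r : ℝ, wker A r * cexp (ν * ((A : ℂ) + gw r)) =
      (1 - ν) * ∫ r : ℝ, wker A r * cexp ((ν - 1) * ((A : ℂ) + gw r)) := by
  set g : ℝ → ℂ := fun r => cexp (cexp ((A : ℂ) + gw r)) * cexp ((ν - 1) * ((A : ℂ) + gw r)) with hg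
  set g' : ℝ → ℂ := fun r => (wker A r * cexp (ν * ((A : ℂ) + gw r)) -
    (1 - ν) * (wker A r * cexp ((ν - 1) * ((A : ℂ) + gw r)))) * (2 * I) with hg'
  have hd : ∀ r : ℝ, HasDerivAt g (g' r) r := by
    intro r
    have h0 : HasDerivAt (fun r : ℝ => (A : ℂ) + gw r) (2 * I / (1 + I * r)) r :=
      (hasDerivAt_gw r).const_add _
    have h1 := h0.cexp.cexp
    have h2 := (h0.const_mul (ν - 1)).cexp
    have h3 := h1.mul h2
    have e : cexp (ν * ((A : ℂ) + gw r)) = cexp ((A : ℂ) + gw r) * cexp ((ν - 1) * ((A : ℂ) + gw r)) := by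
      rw [← Complex.exp_add]; congr 1; ring
    have e5 : cexp (cexp ((A : ℂ) + gw r)) * (cexp ((A : ℂ) + gw r) * (2 * I / (1 + I * r))) *
        cexp ((ν - 1) * ((A : ℂ) + gw r)) + cexp (cexp ((A : ℂ) + gw r)) *
        (cexp ((ν - 1) * ((A : ℂ) + gw r)) * ((ν - 1) * (2 * I / (1 + I * r)))) = g' r := by
      have h4 := one_add_ne r
      rw [hg']
      simp only [wker, e]
      field_simp
      ring
    rw [← e5]
    exact h3
  have hi : Integrable g' :=
    ((integrable_exp_w ν A).sub ((integrable_exp_w (ν - 1) A).const_mul (1 - ν))).mul_const _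
  -- g tends to zero at both ends
  have hb : ∀ r : ℝ, ‖g r‖ ≤ (Real.exp (|(ν - 1).re| * |A| + |(ν - 1).im| * Real.pi) *
      (1 + r ^ 2) ^ ⌈|(ν - 1).re|⌉₊) * Real.exp (Real.exp A * (1 - r ^ 2)) := by
    intro r
    change ‖cexp (cexp ((A : ℂ) + gw r)) * cexp ((ν - 1) * ((A : ℂ) + gw r))‖ ≤ _
    rw [norm_mul, norm_exp_exp, mul_comm]
    exact mul_le_mul_of_nonneg_right (norm_exp_w (ν - 1) A r) (Real.exp_pos _).le
  set N := ⌈|(ν - 1).re|⌉₊ with hN
  set E := Real.exp (|(ν - 1).re| * |A| + |(ν - 1).im| * Real.pi) with hE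
  have hE0 : 0 ≤ E := (Real.exp_pos _).le
  have hlim0 : Tendsto (fun s : ℝ => E * ((N.factorial / (Real.exp A / 2) ^ N *
      Real.exp (3 / 2 * Real.exp A)) * Real.exp (-(Real.exp A / 2) * s))) atTop (𝓝 0) := by
    have h1 : Tendsto (fun s : ℝ => -(Real.exp A / 2) * s) atTop atBot :=
      (tendsto_id).const_mul_atTop_of_neg (by
        have := Real.exp_pos A
        linarith)
    have h2 := ((Real.tendsto_exp_atBot.comp h1).const_mul (N.factorial / (Real.exp A / 2) ^ N *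
      Real.exp (3 / 2 * Real.exp A))).const_mul E
    simpa [Function.comp_def] using h2
  have hb2 : ∀ r : ℝ, ‖g r‖ ≤ E * ((N.factorial / (Real.exp A / 2) ^ N *
      Real.exp (3 / 2 * Real.exp A)) * Real.exp (-(Real.exp A / 2) * r ^ 2)) := by
    intro r
    refine (hb r).trans ?_
    rw [mul_assoc]
    exact mul_le_mul_of_nonneg_left (poly_gauss_le A N r) hE0
  have hsqT : Tendsto (fun r : ℝ => r ^ 2) atTop atTop := tendsto_pow_atTop (by norm_num)
  have hsqB : Tendsto (fun r : ℝ => r ^ 2) atBot atTop := by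
    have h := hsqT.comp (tendsto_neg_atBot_atTop (G := ℝ))
    refine h.congr fun r => ?_
    simp
  have ht : Tendsto g atTop (𝓝 0) := by
    have h1 := hlim0.comp hsqT
    rw [tendsto_zero_iff_norm_tendsto_zero]
    exact squeeze_zero (fun r => norm_nonneg _) hb2 h1
  have hbt : Tendsto g atBot (𝓝 0) := by
    have h1 := hlim0.comp hsqB
    rw [tendsto_zero_iff_norm_tendsto_zero]
    exact squeeze_zero (fun r => norm_nonneg _) hb2 h1
  have hz := integral_of_hasDerivAt_of_tendsto hd hi hbt ht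
  rw [sub_zero] at hz
  have hz' : ∫ r : ℝ, (wker A r * cexp (ν * ((A : ℂ) + gw r)) -
    (1 - ν) * (wker A r * cexp ((ν - 1) * ((A : ℂ) + gw r)))) * (2 * I) = 0 := hz
  rw [integral_mul_const] at hz'
  have h2I : (2 * I : ℂ) ≠ 0 := by simp
  have hz2 := (mul_eq_zero.mp hz').resolve_right h2I
  rw [integral_sub (integrable_exp_w ν A) ((integrable_exp_w (ν - 1) A).const_mul (1 - ν)),
    integral_const_mul] at hz2
  exact sub_eq_zero.mp hz2

/-- Hankel's formula on the parabola for every exponent. -/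
theorem hankel_all (ν : ℂ) (A : ℝ) :
    ∫ r : ℝ, wker A r * cexp (ν * ((A : ℂ) + gw r)) = Real.pi * (Gamma (1 - ν))⁻¹ := by
  have key : ∀ n : ℕ, ∀ ν : ℂ, ν.re < n + 1 / 2 →
      ∫ r : ℝ, wker A r * cexp (ν * ((A : ℂ) + gw r)) = Real.pi * (Gamma (1 - ν))⁻¹ := by
    intro n
    induction n with
    | zero =>
      intro ν hν
      have h := integral_wker_exp A (y := -ν) (by
        rw [neg_re]
        push_cast at hν
        linarith)
      rw [neg_neg] at h
      rw [h, ← sub_eq_add_neg]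
    | succ n ih =>
      intro ν hν
      rw [hankel_rec]
      have h := ih (ν - 1) (by
        rw [sub_re, one_re]
        push_cast at hν
        linarith)
      rw [h]
      have e : (1 : ℂ) - (ν - 1) = (1 - ν) + 1 := by ring
      by_cases h0 : (1 : ℂ) - ν = 0
      · rw [h0, Complex.Gamma_zero]
        simp
      · rw [e, Complex.Gamma_add_one _ h0, mul_inv]
        field_simp
  obtain ⟨n, hn⟩ := exists_nat_gt (ν.re)
  exact key n ν (by linarith)

end Pool.Agent.Helper87.VP
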