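import Mathlib
import Pool.Agent.Helper87.VP.Kn

set_option autoImplicit false

/-!
# The limit of the parabola integral, exponential version
-/

open MeasureTheory Set Complex Filter Topology

namespace Pool.Agent.Helper87.VP

open Pool.Agent.Helper5.UP
open Pool.Agent.Helper10.UP (HS)

theorem norm_w_le (r : ℝ) : ‖((1 : ℝ) : ℂ) + gw r‖ ≤ 6 * (1 + r ^ 2) := by
  have := one_add_norm_le 1 r
  rw [abs_one] at this
  linarith

theorem norm_exp_le_ball {ν : ℂ} (hν : ‖ν‖ < 1) (r : ℝ) :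
    ‖cexp (ν * (((1 : ℝ) : ℂ) + gw r))‖ ≤ Real.exp (1 + Real.pi) * (1 + r ^ 2) ^ 1 := by
  have h1 := norm_exp_w ν 1 r
  refine h1.trans ?_
  have h2 : |ν.re| ≤ 1 := (Complex.abs_re_le_norm ν).trans hν.le
  have h3 : |ν.im| ≤ 1 := (Complex.abs_im_le_norm ν).trans hν.le
  have h4 : ⌈|ν.re|⌉₊ ≤ 1 := by
    rw [Nat.ceil_le]
    simpa using h2
  have h5 : (1 : ℝ) ≤ 1 + r ^ 2 := by nlinarith [sq_nonneg r]
  rw [abs_one, mul_one]
  refine mul_le_mul (Real.exp_le_exp.mpr ?_) (pow_le_pow_right₀ h5 h4) (by positivity)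
    (Real.exp_pos _).le
  have := mul_le_mul_of_nonneg_right h3 Real.pi_pos.le
  linarith

/-- The function under the integral sign. -/
noncomputable def FF (ν : ℂ) (r : ℝ) : ℂ := wker 1 r * cexp (ν * (((1 : ℝ) : ℂ) + gw r))

/-- Its derivative. -/
noncomputable def FD (ν : ℂ) (r : ℝ) : ℂ :=
  wker 1 r * (cexp (ν * (((1 : ℝ) : ℂ) + gw r)) * (((1 : ℝ) : ℂ) + gw r))

theorem hasDerivAt_FF (ν : ℂ) (r : ℝ) : HasDerivAt (fun ν => FF ν r) (FD ν r) ν := by
  unfold FF FD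
  have h := (((hasDerivAt_id ν).mul_const (((1 : ℝ) : ℂ) + gw r)).cexp).const_mul (wker 1 r)
  rw [one_mul] at h
  exact h

theorem norm_FD_le {ν : ℂ} (hν : ‖ν‖ < 1) (r : ℝ) :
    ‖FD ν r‖ ≤ 6 * Real.exp (1 + Real.pi) * (1 + r ^ 2) ^ 2 *
      Real.exp (Real.exp 1 * (1 - r ^ 2)) := by
  unfold FD
  rw [norm_mul, norm_mul]
  have h1 := norm_exp_le_ball hν r
  have h2 := norm_w_le r
  calc ‖wker 1 r‖ * (‖cexp (ν * (((1 : ℝ) : ℂ) + gw r))‖ * ‖((1 : ℝ) : ℂ) + gw r‖)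
      ≤ Real.exp (Real.exp 1 * (1 - r ^ 2)) *
        ((Real.exp (1 + Real.pi) * (1 + r ^ 2) ^ 1) * (6 * (1 + r ^ 2))) := by
        refine mul_le_mul (norm_wker_le 1 r) ?_ (by positivity) (Real.exp_pos _).le
        exact mul_le_mul h1 h2 (norm_nonneg _) (by positivity)
    _ = _ := by ring

theorem continuous_FD (ν : ℂ) : Continuous (FD ν) := by
  unfold FD
  have h1 := continuous_wker 1
  have h2 := continuous_gw
  fun_prop

theorem hasDerivAt_int : HasDerivAt (fun ν : ℂ => ∫ r : ℝ, FF ν r) (∫ r : ℝ, FD 0 r) 0 :=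
  (hasDerivAt_integral_of_dominated_loc_of_deriv_le (μ := (volume : Measure ℝ))
    (F := FF) (F' := FD) (x₀ := (0 : ℂ)) (s := Metric.ball (0 : ℂ) 1)
    (bound := fun r : ℝ => 6 * Real.exp (1 + Real.pi) * (1 + r ^ 2) ^ 2 *
      Real.exp (Real.exp 1 * (1 - r ^ 2)))
    (Metric.ball_mem_nhds _ one_pos)
    (Filter.Eventually.of_forall fun ν => (integrable_exp_w ν 1).aestronglyMeasurable)
    (integrable_exp_w 0 1)
    (continuous_FD 0).aestronglyMeasurable
    (Filter.Eventually.of_forall fun r ν hν => norm_FD_le (mem_ball_zero_iff.mp hν) r)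
    (integrable_poly_gauss 1 (6 * Real.exp (1 + Real.pi)) 2)
    (Filter.Eventually.of_forall fun r ν _ => hasDerivAt_FF ν r)).2

theorem hasDerivAt_gam : HasDerivAt (fun ν : ℂ => (Real.pi : ℂ) * (Gamma (1 - ν))⁻¹)
    (-(Real.pi * (Real.eulerMascheroniConstant : ℂ))) 0 := by
  have e1 : HasDerivAt (fun ν : ℂ => (1 : ℂ) - ν) (-1) 0 := (hasDerivAt_id (0 : ℂ)).const_sub 1
  have e2 : HasDerivAt Gamma (-(Real.eulerMascheroniConstant : ℂ)) ((1 : ℂ) - 0) := by
    rw [sub_zero]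
    exact Complex.hasDerivAt_Gamma_one
  have e3 : HasDerivAt (fun ν : ℂ => Gamma (1 - ν)) (-(Real.eulerMascheroniConstant : ℂ) * -1) 0 :=
    e2.comp (0 : ℂ) e1
  have e4 : Gamma ((1 : ℂ) - 0) ≠ 0 := by
    rw [sub_zero, Complex.Gamma_one]
    exact one_ne_zero
  have e5 := (e3.fun_inv e4).const_mul (Real.pi : ℂ)
  rw [sub_zero, Complex.Gamma_one] at e5
  have e6 : (Real.pi : ℂ) * (-(-(Real.eulerMascheroniConstant : ℂ) * -1) / 1 ^ 2) =
      -(Real.pi * (Real.eulerMascheroniConstant : ℂ)) := by ring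
  rw [e6] at e5
  exact e5

/-- The kernel against `w` itself. -/
theorem integral_wker_w :
    ∫ r : ℝ, wker 1 r * (((1 : ℝ) : ℂ) + gw r) = -(Real.pi * (Real.eulerMascheroniConstant : ℂ)) := by
  have hf : (fun ν : ℂ => ∫ r : ℝ, FF ν r) = fun ν : ℂ => (Real.pi : ℂ) * (Gamma (1 - ν))⁻¹ := by
    funext ν
    exact hankel_all ν 1
  have h1 := hasDerivAt_int
  rw [hf] at h1
  rw [← h1.unique hasDerivAt_gam]
  refine integral_congr_ae (Filter.Eventually.of_forall fun r => ?_)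
  unfold FD
  simp only [zero_mul, Complex.exp_zero, one_mul]

/-- The limit theorem with an explicit error, exponential version. -/
theorem lim_est {a : ℝ} (ha0 : 0 < a) (ha1 : a ≤ 1) : ∃ C0 : ℝ, 0 ≤ C0 ∧
    ∀ (G : ℂ → ℂ) (m : ℕ) (c : ℂ) (K A : ℝ), 1 ≤ A → 0 ≤ K →
    DifferentiableOn ℂ G HS →
    (∀ w ∈ HS, ‖G w - (m * (a * w) + c)‖ ≤ K * Real.exp (a * w.re)) →
    ‖(Real.pi : ℂ)⁻¹ * (∫ r : ℝ, wker A r * G ((A : ℂ) + gw r))
      - (-(m * a * Real.eulerMascheroniConstant) + c)‖ ≤ C0 * K := by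
  set M : ℝ := ∫ r : ℝ, ‖wker 1 r * ((Real.exp a * (1 + r ^ 2) ^ 1 : ℝ) : ℂ)‖ with hM
  have hM0 : 0 ≤ M := integral_nonneg fun r => norm_nonneg _
  refine ⟨Real.pi⁻¹ * M, by have := Real.pi_pos; positivity, ?_⟩
  intro G m c K A hA hK hG hest
  have hpow : ∀ r : ℝ, Real.exp (a * Real.log (1 + r ^ 2)) ≤ (1 + r ^ 2) ^ 1 := by
    intro r
    have h5 : (1 : ℝ) ≤ 1 + r ^ 2 := by nlinarith [sq_nonneg r]
    rw [pow_one]
    conv_rhs => rw [← Real.exp_log (show 0 < 1 + r ^ 2 by positivity)]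
    refine Real.exp_le_exp.mpr ?_
    have := Real.log_nonneg h5
    nlinarith
  have hest' : ∀ A' ∈ Icc 1 A, ∀ r : ℝ, ‖G ((A' : ℂ) + gw r)‖
      ≤ (m * (A + 5) + ‖c‖ + K * Real.exp (a * A)) * (1 + r ^ 2) ^ 1 := by
    intro A' hA' r
    have h5 : (1 : ℝ) ≤ 1 + r ^ 2 := by nlinarith [sq_nonneg r]
    set w : ℂ := (A' : ℂ) + gw r with hw
    have h1 := hest w (mem_HS hA'.1 r)
    have h2 : ‖w‖ ≤ (A + 5) * (1 + r ^ 2) := by
      have := one_add_norm_le A' r
      rw [abs_of_nonneg (by linarith [hA'.1])] at this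
      have h3 : (A' + 5) * (1 + r ^ 2) ≤ (A + 5) * (1 + r ^ 2) :=
        mul_le_mul_of_nonneg_right (by linarith [hA'.2]) (by positivity)
      linarith
    have h3 : ‖(m : ℂ) * (a * w) + c‖ ≤ m * ((A + 5) * (1 + r ^ 2)) + ‖c‖ := by
      refine (norm_add_le _ _).trans (add_le_add_left ?_ _)
      rw [norm_mul, norm_mul, Complex.norm_natCast, Complex.norm_real, Real.norm_of_nonneg ha0.le]
      refine mul_le_mul_of_nonneg_left ?_ (Nat.cast_nonneg m)
      have := norm_nonneg w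
      nlinarith
    have h4 : K * Real.exp (a * w.re) ≤ K * (Real.exp (a * A) * (1 + r ^ 2)) := by
      refine mul_le_mul_of_nonneg_left ?_ hK
      rw [hw, add_re, ofReal_re, gw_re, mul_add, Real.exp_add]
      refine mul_le_mul (Real.exp_le_exp.mpr (mul_le_mul_of_nonneg_left hA'.2 ha0.le)) ?_
        (Real.exp_pos _).le (Real.exp_pos _).le
      have := hpow r
      rwa [pow_one] at this
    have h6 : ‖G w‖ ≤ ‖G w - (m * (a * w) + c)‖ + ‖(m : ℂ) * (a * w) + c‖ := by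
      have := norm_add_le (G w - (m * (a * w) + c)) ((m : ℂ) * (a * w) + c)
      simpa using this
    have h7 : ‖c‖ ≤ ‖c‖ * (1 + r ^ 2) := le_mul_of_one_le_right (norm_nonneg _) h5
    rw [pow_one]
    nlinarith
  have hcont : Continuous fun r : ℝ => G (((1 : ℝ) : ℂ) + gw r) :=
    hG.continuousOn.comp_continuous (continuous_const.add continuous_gw) (fun r => mem_HS le_rfl r)
  have hI : Integrable fun r : ℝ => wker 1 r * G (((1 : ℝ) : ℂ) + gw r) :=
    int_poly 1 hcont.aestronglyMeasurable (hest' 1 ⟨le_rfl, hA⟩)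
  rw [shift_poly hG 1 hA hest']
  have hwi : Integrable fun r : ℝ => wker 1 r * (((1 : ℝ) : ℂ) + gw r) := by
    refine int_poly (C := 6) 1 (continuous_const.add continuous_gw).aestronglyMeasurable
      (fun r => ?_)
    have := one_add_norm_le 1 r
    rw [abs_one] at this
    rw [pow_one]
    linarith
  have hi2 : Integrable fun r : ℝ => wker 1 r * (m * (a * (((1 : ℝ) : ℂ) + gw r)) + c) := by
    refine ((hwi.mul_const ((m : ℂ) * a)).add ((integrable_wker 1).mul_const c)).congr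
      (Filter.Eventually.of_forall fun r => ?_)
    simp only [Pi.add_apply]
    ring
  have hmain : (∫ r : ℝ, wker 1 r * (m * (a * (((1 : ℝ) : ℂ) + gw r)) + c)) =
      Real.pi * (-(m * a * Real.eulerMascheroniConstant) + c) := by
    have h1 : (fun r : ℝ => wker 1 r * (m * (a * (((1 : ℝ) : ℂ) + gw r)) + c)) =
        fun r : ℝ => wker 1 r * (((1 : ℝ) : ℂ) + gw r) * (m * a) + wker 1 r * c := by
      funext r
      ring
    rw [h1, integral_add (hwi.mul_const _) ((integrable_wker 1).mul_const _), integral_mul_const,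
      integral_mul_const, integral_wker_w, integral_wker]
    ring
  have hpi : (Real.pi : ℂ) ≠ 0 := by exact_mod_cast Real.pi_pos.ne'
  have hsub : (Real.pi : ℂ)⁻¹ * (∫ r : ℝ, wker 1 r * G (((1 : ℝ) : ℂ) + gw r))
      - (-(m * a * Real.eulerMascheroniConstant) + c)
      = (Real.pi : ℂ)⁻¹ * ∫ r : ℝ, wker 1 r * (G (((1 : ℝ) : ℂ) + gw r)
        - (m * (a * (((1 : ℝ) : ℂ) + gw r)) + c)) := by
    have h1 : (∫ r : ℝ, wker 1 r * (G (((1 : ℝ) : ℂ) + gw r)
        - (m * (a * (((1 : ℝ) : ℂ) + gw r)) + c)))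
        = (∫ r : ℝ, wker 1 r * G (((1 : ℝ) : ℂ) + gw r))
          - Real.pi * (-(m * a * Real.eulerMascheroniConstant) + c) := by
      rw [← hmain, ← integral_sub hI hi2]
      refine integral_congr_ae (Filter.Eventually.of_forall fun r => ?_)
      simp only []
      ring
    rw [h1, mul_sub, inv_mul_cancel_left₀ hpi]
  rw [hsub, norm_mul, norm_inv, Complex.norm_real, Real.norm_of_nonneg Real.pi_pos.le, mul_assoc]
  refine mul_le_mul_of_nonneg_left ?_ (inv_nonneg.mpr Real.pi_pos.le)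
  have hMi : Integrable fun r : ℝ => ‖wker 1 r * ((Real.exp a * (1 + r ^ 2) ^ 1 : ℝ) : ℂ)‖ := by
    refine (int_poly (C := Real.exp a) 1 (Continuous.aestronglyMeasurable ?_) (fun r => ?_)).norm
    · fun_prop
    · rw [Complex.norm_real, Real.norm_of_nonneg (by positivity)]
  rw [mul_comm M K, hM, ← integral_const_mul]
  refine norm_integral_le_of_norm_le (hMi.const_mul _) (Filter.Eventually.of_forall fun r => ?_)
  rw [norm_mul, norm_mul, Complex.norm_real, Real.norm_of_nonneg (by positivity)]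
  have h1 := hest (((1 : ℝ) : ℂ) + gw r) (mem_HS le_rfl r)
  have h2 : Real.exp (a * (((1 : ℝ) : ℂ) + gw r).re) ≤ Real.exp a * (1 + r ^ 2) ^ 1 := by
    rw [add_re, ofReal_re, gw_re, mul_add, mul_one, Real.exp_add]
    exact mul_le_mul_of_nonneg_left (hpow r) (Real.exp_pos _).le
  calc ‖wker 1 r‖ * ‖G (((1 : ℝ) : ℂ) + gw r) - (m * (a * (((1 : ℝ) : ℂ) + gw r)) + c)‖
      ≤ ‖wker 1 r‖ * (K * (Real.exp a * (1 + r ^ 2) ^ 1)) :=
        mul_le_mul_of_nonneg_left (h1.trans (mul_le_mul_of_nonneg_left h2 hK)) (norm_nonneg _)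
    _ = _ := by ring

end Pool.Agent.Helper87.VP
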