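import Mathlib
import Pool.Agent.Helper87.VP.Li

set_option autoImplicit false

/-!
# The weight function `∑ (-z) ^ j / (j! Γ (1 - a j))`
-/

open MeasureTheory Set Complex Filter Topology

namespace Pool.Agent.Helper87.VP

open Pool.Agent.Helper5.UP
open Pool.Agent.Helper10.UP (HS)

/-- The weight function as a series. -/
noncomputable def Ws (a : ℝ) (z : ℂ) : ℂ :=
  ∑' j : ℕ, (-z) ^ j / (j.factorial : ℂ) * (Gamma (1 - a * j))⁻¹

/-- The weight function as an integral. -/
noncomputable def Wi (a : ℝ) (x : ℂ) : ℂ :=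
  (Real.pi : ℂ)⁻¹ * ∫ r : ℝ, wker 1 r * cexp (-(x * cexp (a * (((1 : ℝ) : ℂ) + gw r))))

theorem exists_lin {a X : ℝ} (ha0 : 0 < a) (ha1 : a < 1) (hX : 0 ≤ X) :
    ∃ C : ℝ, 0 ≤ C ∧ ∀ s : ℝ, 1 ≤ s → X * s ^ a ≤ s + C := by
  refine ⟨X * (X ^ (1 / (1 - a)) ) ^ a, by positivity, fun s hs => ?_⟩
  have hs0 : 0 < s := by linarith
  have h1a : 0 < 1 - a := by linarith
  by_cases h : X ^ (1 / (1 - a)) ≤ s
  · have h1 : X ≤ s ^ (1 - a) := by
      have h2 := Real.rpow_le_rpow (by positivity) h h1a.le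
      rw [← Real.rpow_mul hX, one_div, inv_mul_cancel₀ h1a.ne', Real.rpow_one] at h2
      exact h2
    have h3 : X * s ^ a ≤ s := by
      calc X * s ^ a ≤ s ^ (1 - a) * s ^ a := mul_le_mul_of_nonneg_right h1 (by positivity)
        _ = s := by rw [← Real.rpow_add hs0]; simp
    have h4 : 0 ≤ X * (X ^ (1 / (1 - a))) ^ a := by positivity
    linarith
  · have h1 : s ^ a ≤ (X ^ (1 / (1 - a))) ^ a := Real.rpow_le_rpow hs0.le (not_le.mp h).le ha0.le
    have h2 := mul_le_mul_of_nonneg_left h1 hX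
    linarith

theorem norm_ea (a A r : ℝ) : ‖cexp (a * ((A : ℂ) + gw r))‖ = Real.exp (a * A) * (1 + r ^ 2) ^ a := by
  rw [Complex.norm_exp, Complex.re_ofReal_mul, add_re, ofReal_re, gw_re, mul_add, Real.exp_add,
    Real.rpow_def_of_pos (by positivity), mul_comm (Real.log _) a]

/-- The integral is the series. -/
theorem Wi_eq_Ws {a : ℝ} (ha0 : 0 < a) (ha1 : a < 1) (x : ℂ) : Wi a x = Ws a x := by
  set F : ℕ → ℝ → ℂ := fun j r =>
    ((-x) ^ j / (j.factorial : ℂ)) * (wker 1 r * cexp ((a * j : ℂ) * (((1 : ℝ) : ℂ) + gw r))) with hF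
  have hFi : ∀ j, Integrable (F j) := fun j => (integrable_exp_w _ 1).const_mul _
  have hFn : ∀ j r, ‖F j r‖ = ‖wker 1 r‖ * ((‖x‖ * (Real.exp (a * 1) * (1 + r ^ 2) ^ a)) ^ j /
      (j.factorial : ℝ)) := by
    intro j r
    have e : (a * j : ℂ) * (((1 : ℝ) : ℂ) + gw r) = (j : ℂ) * (a * (((1 : ℝ) : ℂ) + gw r)) := by ring
    simp only [hF]
    rw [norm_mul, norm_mul, norm_div, norm_pow, norm_neg, Complex.norm_natCast, e,
      Complex.exp_nat_mul, norm_pow, norm_ea, mul_pow]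
    ring
  obtain ⟨C, hC0, hC⟩ := exists_lin (X := ‖x‖ * Real.exp (a * 1)) ha0 ha1 (by positivity)
  set D : ℝ → ℝ := fun r => ‖wker 1 r‖ * Real.exp (‖x‖ * (Real.exp (a * 1) * (1 + r ^ 2) ^ a)) with hD
  have hDb : ∀ r, D r ≤ Real.exp (Real.exp 1 + 1 + C) * Real.exp (-(Real.exp 1 - 1) * r ^ 2) := by
    intro r
    have h5 : (1 : ℝ) ≤ 1 + r ^ 2 := by nlinarith [sq_nonneg r]
    have h1 := hC (1 + r ^ 2) h5
    calc D r ≤ Real.exp (Real.exp 1 * (1 - r ^ 2)) * Real.exp ((1 + r ^ 2) + C) := by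
          refine mul_le_mul (norm_wker_le 1 r) (Real.exp_le_exp.mpr ?_) (Real.exp_pos _).le
            (Real.exp_pos _).le
          rw [← mul_assoc]
          exact h1
      _ = _ := by
          rw [← Real.exp_add, ← Real.exp_add]
          congr 1
          ring
  have hDc : Continuous D := by
    have h1 := continuous_wker 1
    have h2 : Continuous fun r : ℝ => (1 + r ^ 2) ^ a :=
      Continuous.rpow_const (by fun_prop) (fun r => Or.inl (by positivity))
    fun_prop
  have hDi : Integrable D := by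
    have h1 : 0 < Real.exp 1 - 1 := by
      have := Real.add_one_lt_exp (x := 1) one_ne_zero
      linarith
    refine ((integrable_exp_neg_mul_sq h1).const_mul (Real.exp (Real.exp 1 + 1 + C))).mono'
      hDc.aestronglyMeasurable (Filter.Eventually.of_forall fun r => ?_)
    rw [Real.norm_of_nonneg (by positivity)]
    exact hDb r
  have hsum : Summable fun j => ∫ r : ℝ, ‖F j r‖ := by
    refine summable_of_sum_le (c := ∫ r : ℝ, D r) (fun j => integral_nonneg fun r => norm_nonneg _)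
      (fun u => ?_)
    rw [← integral_finsetSum u (fun j _ => (hFi j).norm)]
    refine integral_mono (integrable_finsetSum u fun j _ => (hFi j).norm) hDi (fun r => ?_)
    simp only []
    simp_rw [hFn]
    rw [← Finset.mul_sum]
    refine mul_le_mul_of_nonneg_left ?_ (norm_nonneg _)
    have h1 := Real.summable_pow_div_factorial (‖x‖ * (Real.exp (a * 1) * (1 + r ^ 2) ^ a))
    have h2 : Real.exp (‖x‖ * (Real.exp (a * 1) * (1 + r ^ 2) ^ a)) =
        ∑' j : ℕ, (‖x‖ * (Real.exp (a * 1) * (1 + r ^ 2) ^ a)) ^ j / (j.factorial : ℝ) := by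
      rw [Real.exp_eq_exp_ℝ, NormedSpace.exp_eq_tsum_div]
    rw [h2]
    exact h1.sum_le_tsum u (fun j _ => by positivity)
  have hmain := hasSum_integral_of_summable_integral_norm hFi hsum
  have hpt : ∀ r : ℝ, ∑' j, F j r =
      wker 1 r * cexp (-(x * cexp (a * (((1 : ℝ) : ℂ) + gw r)))) := by
    intro r
    have h2 : cexp (-(x * cexp (a * (((1 : ℝ) : ℂ) + gw r)))) =
        ∑' j : ℕ, (-(x * cexp (a * (((1 : ℝ) : ℂ) + gw r)))) ^ j / (j.factorial : ℂ) := by
      rw [Complex.exp_eq_exp_ℂ, NormedSpace.exp_eq_tsum_div]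
    rw [h2, ← tsum_mul_left]
    refine tsum_congr fun j => ?_
    have e : (a * j : ℂ) * (((1 : ℝ) : ℂ) + gw r) = (j : ℂ) * (a * (((1 : ℝ) : ℂ) + gw r)) := by ring
    simp only [hF]
    rw [e, Complex.exp_nat_mul, ← neg_mul, mul_pow]
    ring
  simp_rw [hpt] at hmain
  have hpi : (Real.pi : ℂ) ≠ 0 := by exact_mod_cast Real.pi_pos.ne'
  have hterm : ∀ j, ∫ r : ℝ, F j r = (Real.pi : ℂ) *
      ((-x) ^ j / (j.factorial : ℂ) * (Gamma (1 - a * j))⁻¹) := by
    intro j
    simp only [hF]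
    rw [integral_const_mul, hankel_all]
    ring
  simp_rw [hterm] at hmain
  have h3 := hmain.mul_left ((Real.pi : ℂ)⁻¹)
  simp_rw [inv_mul_cancel_left₀ hpi] at h3
  rw [Wi, Ws]
  exact h3.tsum_eq.symm

/-- The turned scale. -/
noncomputable def tz (φ u : ℝ) : ℂ := cexp (φ * I) * u

theorem re_tz_mul {a φ : ℝ} (ha : 0 ≤ a) (h : |φ| + Real.pi * a ≤ Real.pi) {u : ℝ} (hu : 0 ≤ u)
    {w : ℂ} (hw : |w.im| ≤ Real.pi) :
    Real.cos (|φ| + Real.pi * a) * u * Real.exp (a * w.re) ≤ (tz φ u * cexp (a * w)).re := by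
  have e : tz φ u * cexp (a * w) = ((u : ℝ) : ℂ) * cexp (φ * I + a * w) := by
    rw [tz, Complex.exp_add]; ring
  have h1 : (φ * I + a * w : ℂ).re = a * w.re := by simp
  have h2 : (φ * I + a * w : ℂ).im = φ + a * w.im := by simp
  rw [e, Complex.re_ofReal_mul, Complex.exp_re, h1, h2]
  have h3 : Real.cos (|φ| + Real.pi * a) ≤ Real.cos (φ + a * w.im) := by
    rw [← Real.cos_abs (φ + a * w.im)]
    refine Real.cos_le_cos_of_nonneg_of_le_pi (abs_nonneg _) h ?_
    refine (abs_add_le _ _).trans (add_le_add_right ?_ _)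
    rw [abs_mul, abs_of_nonneg ha, mul_comm]
    exact mul_le_mul_of_nonneg_right hw ha
  calc Real.cos (|φ| + Real.pi * a) * u * Real.exp (a * w.re)
      = u * Real.exp (a * w.re) * Real.cos (|φ| + Real.pi * a) := by ring
    _ ≤ u * Real.exp (a * w.re) * Real.cos (φ + a * w.im) :=
        mul_le_mul_of_nonneg_left h3 (by positivity)
    _ = _ := by ring

theorem abs_im_le (A r : ℝ) : |((A : ℂ) + gw r).im| ≤ Real.pi := by
  rw [add_im, ofReal_im, zero_add]
  exact (gw_im_lt r).le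

/-- The integral on the other parabolas. -/
theorem Wi_line {a φ : ℝ} (ha : 0 ≤ a) (h : |φ| + Real.pi * a ≤ Real.pi / 2) {u : ℝ} (hu : 0 ≤ u)
    {A : ℝ} (hA : 1 ≤ A) :
    Wi a (tz φ u) = (Real.pi : ℂ)⁻¹ *
      ∫ r : ℝ, wker A r * cexp (-(tz φ u * cexp (a * ((A : ℂ) + gw r)))) := by
  have hcos : 0 ≤ Real.cos (|φ| + Real.pi * a) := by
    refine Real.cos_nonneg_of_neg_pi_div_two_le_of_le ?_ h
    have := Real.pi_pos
    have h2 := abs_nonneg φ
    have h3 : 0 ≤ Real.pi * a := by positivity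
    linarith
  have hpi := Real.pi_pos
  rw [Wi, ← shift_poly (G := fun w => cexp (-(tz φ u * cexp (a * w)))) (C := 1) (A := A)
    (by fun_prop) 0 hA (fun A' _ r => ?_)]
  rw [pow_zero, mul_one, Complex.norm_exp, Real.exp_le_one_iff, neg_re, neg_nonpos]
  refine le_trans ?_ (re_tz_mul ha (h.trans (by linarith)) hu (abs_im_le A' r))
  positivity

/-- The bound. -/
theorem norm_Wi_le {a φ : ℝ} (ha : 0 ≤ a) (h : |φ| + Real.pi * a ≤ Real.pi / 2) {u : ℝ} (hu : 0 ≤ u)
    {A : ℝ} (hA : 1 ≤ A) :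
    ‖Wi a (tz φ u)‖ ≤ Real.exp (Real.exp A -
      Real.cos (|φ| + Real.pi * a) * u * Real.exp (a * A)) := by
  have hpi := Real.pi_pos
  set c := Real.cos (|φ| + Real.pi * a) with hc
  have hcos : 0 ≤ c := by
    refine Real.cos_nonneg_of_neg_pi_div_two_le_of_le ?_ h
    have h2 := abs_nonneg φ
    have h3 : 0 ≤ Real.pi * a := by positivity
    linarith
  rw [Wi_line ha h hu hA, norm_mul, norm_inv, Complex.norm_real, Real.norm_of_nonneg hpi.le]
  have hb : ∀ r : ℝ, ‖wker A r * cexp (-(tz φ u * cexp (a * ((A : ℂ) + gw r))))‖ ≤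
      Real.exp (Real.exp A - c * u * Real.exp (a * A)) * Real.exp (-(Real.exp A) * r ^ 2) := by
    intro r
    rw [norm_mul, Complex.norm_exp, neg_re]
    have h1 := re_tz_mul ha (h.trans (by linarith)) hu (abs_im_le A r)
    have h2 : c * u * Real.exp (a * A) ≤ c * u * Real.exp (a * ((A : ℂ) + gw r).re) := by
      refine mul_le_mul_of_nonneg_left (Real.exp_le_exp.mpr (mul_le_mul_of_nonneg_left ?_ ha))
        (by positivity)
      rw [add_re, ofReal_re, gw_re]
      have := Real.log_nonneg (show (1 : ℝ) ≤ 1 + r ^ 2 by nlinarith [sq_nonneg r])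
      linarith
    calc ‖wker A r‖ * Real.exp (-(tz φ u * cexp (a * ((A : ℂ) + gw r))).re)
        ≤ Real.exp (Real.exp A * (1 - r ^ 2)) * Real.exp (-(c * u * Real.exp (a * A))) := by
          refine mul_le_mul (norm_wker_le A r) (Real.exp_le_exp.mpr ?_) (Real.exp_pos _).le
            (Real.exp_pos _).le
          linarith
      _ = _ := by
          rw [← Real.exp_add, ← Real.exp_add]
          congr 1
          ring
  have hint : Integrable fun r : ℝ => Real.exp (Real.exp A - c * u * Real.exp (a * A)) *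
      Real.exp (-(Real.exp A) * r ^ 2) :=
    (integrable_exp_neg_mul_sq (Real.exp_pos A)).const_mul _
  have h1 := norm_integral_le_of_norm_le hint (Filter.Eventually.of_forall hb)
  rw [integral_const_mul, integral_gaussian] at h1
  have h2 : Real.sqrt (Real.pi / Real.exp A) ≤ Real.pi := by
    rw [Real.sqrt_le_left hpi.le]
    have h3 : (1 : ℝ) ≤ Real.exp A := Real.one_le_exp (by linarith)
    have h4 : Real.pi / Real.exp A ≤ Real.pi := div_le_self hpi.le h3
    have h5 := Real.pi_gt_three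
    nlinarith
  calc Real.pi⁻¹ * ‖∫ r : ℝ, wker A r * cexp (-(tz φ u * cexp (a * ((A : ℂ) + gw r))))‖
      ≤ Real.pi⁻¹ * (Real.exp (Real.exp A - c * u * Real.exp (a * A)) * Real.pi) := by
        refine mul_le_mul_of_nonneg_left (h1.trans ?_) (inv_nonneg.mpr hpi.le)
        exact mul_le_mul_of_nonneg_left h2 (Real.exp_pos _).le
    _ = _ := by field_simp

end Pool.Agent.Helper87.VP
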