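import Mathlib
import Pool.Agent.Helper87.VP.Wt

set_option autoImplicit false

/-!
# Exchange of sum and integral
-/

open MeasureTheory Set Complex Filter Topology

namespace Pool.Agent.Helper87.VP

open Pool.Agent.Helper5.UP
open Pool.Agent.Helper10.UP (HS)

/-- The constant of the sector. -/
noncomputable def cs (a φ : ℝ) : ℝ := Real.cos (|φ| + Real.pi * a)

theorem cs_pos {a φ : ℝ} (ha : 0 ≤ a) (h : |φ| + Real.pi * a < Real.pi / 2) : 0 < cs a φ := by
  have hpi := Real.pi_pos
  refine Real.cos_pos_of_mem_Ioo ⟨?_, h⟩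
  have := abs_nonneg φ
  have : 0 ≤ Real.pi * a := by positivity
  linarith

theorem rpow_log {n : ℕ} (hn : 1 ≤ n) (s : ℝ) : Real.exp (-(s * Real.log n)) = (n : ℝ) ^ (-s) := by
  have hnp : (0 : ℝ) < n := by exact_mod_cast hn
  rw [Real.rpow_def_of_pos hnp]
  congr 1
  ring

/-- The bound for the weights with a power of `n`. -/
theorem norm_Wi_nat {a φ τ : ℝ} (ha : 0 ≤ a) (h : |φ| + Real.pi * a < Real.pi / 2) (hτ : 0 < τ)
    {A s : ℝ} (hA : 1 ≤ A) (hs : s ≤ cs a φ * Real.exp (a * A) / τ) {n : ℕ} (hn : 1 ≤ n) :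
    ‖Wi a (tz φ (Real.log n / τ))‖ ≤ Real.exp (Real.exp A) * (n : ℝ) ^ (-s) := by
  have hln : 0 ≤ Real.log n := Real.log_nonneg (by exact_mod_cast hn)
  refine (norm_Wi_le ha h.le (div_nonneg hln hτ.le) hA).trans ?_
  rw [sub_eq_add_neg, Real.exp_add, ← rpow_log hn]
  refine mul_le_mul_of_nonneg_left (Real.exp_le_exp.mpr ?_) (Real.exp_pos _).le
  have h1 := mul_le_mul_of_nonneg_right hs hln
  have h2 : Real.cos (|φ| + Real.pi * a) * (Real.log n / τ) * Real.exp (a * A) =
      cs a φ * Real.exp (a * A) / τ * Real.log n := by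
    rw [cs]; ring
  rw [h2]
  linarith

theorem eventually_large {a c τ : ℝ} (ha0 : 0 < a) (hc : 0 < c) (hτ : 0 < τ) (s : ℝ) :
    ∀ᶠ A : ℝ in atTop, s ≤ c * Real.exp (a * A) / τ := by
  have h1 : Tendsto (fun A : ℝ => Real.exp (a * A)) atTop atTop :=
    Real.tendsto_exp_atTop.comp (tendsto_id.const_mul_atTop ha0)
  have h2 := (h1.const_mul_atTop hc).atTop_div_const hτ
  exact h2.eventually_ge_atTop s

/-- Summability of the weighted series. -/
theorem summable_Wi {b : ℕ → ℝ} (b0 : b 0 = 0)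
    (hs : ∀ s : ℝ, 1 / 2 < s → Summable fun n : ℕ => |b n| * (n : ℝ) ^ (-s))
    {a φ τ : ℝ} (ha0 : 0 < a) (h : |φ| + Real.pi * a < Real.pi / 2) (hτ : 0 < τ) :
    Summable fun n : ℕ => |b n| * ‖Wi a (tz φ (Real.log n / τ))‖ := by
  have hc := cs_pos ha0.le h
  obtain ⟨A, hA1, hA2⟩ := ((eventually_ge_atTop 1).and (eventually_large ha0 hc hτ 1)).exists
  refine Summable.of_nonneg_of_le (fun n => by positivity) (fun n => ?_)
    ((hs 1 (by norm_num)).mul_left (Real.exp (Real.exp A)))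
  rcases Nat.eq_zero_or_pos n with rfl | hn
  · rw [b0, abs_zero, zero_mul, zero_mul, mul_zero]
  · have h1 := norm_Wi_nat ha0.le h hτ hA1 hA2 hn
    calc |b n| * ‖Wi a (tz φ (Real.log n / τ))‖
        ≤ |b n| * (Real.exp (Real.exp A) * (n : ℝ) ^ (-1 : ℝ)) :=
          mul_le_mul_of_nonneg_left h1 (abs_nonneg _)
      _ = _ := by ring

/-- Summability for bounded coefficients. -/
theorem summable_Wi_bdd {b : ℕ → ℝ} (b0 : b 0 = 0) {K : ℝ} (hb : ∀ n, |b n| ≤ K)
    {a φ τ : ℝ} (ha0 : 0 < a) (h : |φ| + Real.pi * a < Real.pi / 2) (hτ : 0 < τ) :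
    Summable fun n : ℕ => |b n| * ‖Wi a (tz φ (Real.log n / τ))‖ := by
  have hc := cs_pos ha0.le h
  have hK : 0 ≤ K := (abs_nonneg _).trans (hb 0)
  obtain ⟨A, hA1, hA2⟩ := ((eventually_ge_atTop 1).and (eventually_large ha0 hc hτ 2)).exists
  have hs2 : Summable fun n : ℕ => (n : ℝ) ^ (-2 : ℝ) := Real.summable_nat_rpow.mpr (by norm_num)
  refine Summable.of_nonneg_of_le (fun n => by positivity) (fun n => ?_)
    (hs2.mul_left (K * Real.exp (Real.exp A)))
  rcases Nat.eq_zero_or_pos n with rfl | hn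
  · rw [b0, abs_zero, zero_mul]
    positivity
  · have h1 := norm_Wi_nat ha0.le h hτ hA1 hA2 hn
    calc |b n| * ‖Wi a (tz φ (Real.log n / τ))‖
        ≤ K * (Real.exp (Real.exp A) * (n : ℝ) ^ (-2 : ℝ)) :=
          mul_le_mul (hb n) h1 (norm_nonneg _) hK
      _ = _ := by ring

theorem term_eq (φ τ a A r : ℝ) {n : ℕ} (hn : n ≠ 0) :
    (n : ℂ) ^ (-(cexp (φ * I) * (cexp (a * ((A : ℂ) + gw r)) / τ))) =
      cexp (-(tz φ (Real.log n / τ) * cexp (a * ((A : ℂ) + gw r)))) := by
  have hn0 : (n : ℂ) ≠ 0 := by exact_mod_cast hn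
  rw [Complex.cpow_def_of_ne_zero hn0, ← Complex.natCast_log, tz]
  congr 1
  push_cast
  ring

theorem fubV {b : ℕ → ℝ} (b0 : b 0 = 0)
    (hs : ∀ s : ℝ, 1 / 2 < s → Summable fun n : ℕ => |b n| * (n : ℝ) ^ (-s))
    {a φ τ : ℝ} (ha0 : 0 < a) (h : |φ| + Real.pi * a < Real.pi / 2) (hτ : 0 < τ) :
    ∀ᶠ A : ℝ in atTop, (∫ r : ℝ, wker A r * (∑' n : ℕ, (b n : ℂ) *
        (n : ℂ) ^ (-(cexp (φ * I) * (cexp (a * ((A : ℂ) + gw r)) / τ))))) =
      Real.pi * ∑' n : ℕ, (b n : ℂ) * Wi a (tz φ (Real.log n / τ)) := by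
  have hc := cs_pos ha0.le h
  have hpi := Real.pi_pos
  filter_upwards [eventually_ge_atTop 1, eventually_large ha0 hc hτ 1] with A hA1 hA2
  set F : ℕ → ℝ → ℂ := fun n r =>
    (b n : ℂ) * (wker A r * cexp (-(tz φ (Real.log n / τ) * cexp (a * ((A : ℂ) + gw r))))) with hF
  set E : ℝ → ℝ := fun r => Real.exp (Real.exp A) * Real.exp (-(Real.exp A) * r ^ 2) with hE
  have hEi : Integrable E := (integrable_exp_neg_mul_sq (Real.exp_pos A)).const_mul _
  have hgc := continuous_gw
  have hwc := continuous_wker A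
  have hFb : ∀ n r, ‖F n r‖ ≤ (|b n| * (n : ℝ) ^ (-1 : ℝ)) * E r := by
    intro n r
    simp only [hF]
    rcases Nat.eq_zero_or_pos n with rfl | hn
    · rw [b0]
      simp
    · have hln : 0 ≤ Real.log n := Real.log_nonneg (by exact_mod_cast hn)
      rw [norm_mul, norm_mul, Complex.norm_real, Real.norm_eq_abs, Complex.norm_exp, neg_re]
      have h1 := re_tz_mul ha0.le (φ := φ) (by linarith) (div_nonneg hln hτ.le) (abs_im_le A r)
      have h2 : Real.log n ≤ cs a φ * (Real.log n / τ) * Real.exp (a * ((A : ℂ) + gw r).re) := by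
        have h3 : Real.exp (a * A) ≤ Real.exp (a * ((A : ℂ) + gw r).re) := by
          refine Real.exp_le_exp.mpr (mul_le_mul_of_nonneg_left ?_ ha0.le)
          rw [add_re, ofReal_re, gw_re]
          have := Real.log_nonneg (show (1 : ℝ) ≤ 1 + r ^ 2 by nlinarith [sq_nonneg r])
          linarith
        have h4 : (1 : ℝ) * Real.log n ≤ cs a φ * Real.exp (a * A) / τ * Real.log n :=
          mul_le_mul_of_nonneg_right hA2 hln
        have h5 : cs a φ * Real.exp (a * A) / τ * Real.log n =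
            cs a φ * (Real.log n / τ) * Real.exp (a * A) := by ring
        have h6 : cs a φ * (Real.log n / τ) * Real.exp (a * A) ≤
            cs a φ * (Real.log n / τ) * Real.exp (a * ((A : ℂ) + gw r).re) :=
          mul_le_mul_of_nonneg_left h3 (by positivity)
        linarith
      have h7 : Real.exp (-(tz φ (Real.log n / τ) * cexp (a * ((A : ℂ) + gw r))).re) ≤
          (n : ℝ) ^ (-1 : ℝ) := by
        rw [← rpow_log hn]
        refine Real.exp_le_exp.mpr ?_
        rw [cs] at h2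
        linarith
      calc |b n| * (‖wker A r‖ *
            Real.exp (-(tz φ (Real.log n / τ) * cexp (a * ((A : ℂ) + gw r))).re))
          ≤ |b n| * (Real.exp (Real.exp A * (1 - r ^ 2)) * (n : ℝ) ^ (-1 : ℝ)) := by
            refine mul_le_mul_of_nonneg_left ?_ (abs_nonneg _)
            exact mul_le_mul (norm_wker_le A r) h7 (Real.exp_pos _).le (Real.exp_pos _).le
        _ = _ := by
            simp only [hE]
            rw [← Real.exp_add]
            have : Real.exp A * (1 - r ^ 2) = Real.exp A + -Real.exp A * r ^ 2 := by ring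
            rw [this]
            ring
  have hFc : ∀ n, Continuous (F n) := by
    intro n
    simp only [hF]
    fun_prop
  have hFi : ∀ n, Integrable (F n) := fun n =>
    (hEi.const_mul _).mono' (hFc n).aestronglyMeasurable (Filter.Eventually.of_forall (hFb n))
  have hsum : Summable fun n => ∫ r : ℝ, ‖F n r‖ := by
    refine Summable.of_nonneg_of_le (fun n => integral_nonneg fun r => norm_nonneg _) (fun n => ?_)
      ((hs 1 (by norm_num)).mul_right (∫ r : ℝ, E r))
    rw [← integral_const_mul]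
    exact integral_mono (hFi n).norm (hEi.const_mul _) (hFb n)
  have hmain := hasSum_integral_of_summable_integral_norm hFi hsum
  have hpi0 : (Real.pi : ℂ) ≠ 0 := by exact_mod_cast hpi.ne'
  have hterm : ∀ n, ∫ r : ℝ, F n r = (Real.pi : ℂ) *
      ((b n : ℂ) * Wi a (tz φ (Real.log n / τ))) := by
    intro n
    simp only [hF]
    rw [integral_const_mul]
    rcases Nat.eq_zero_or_pos n with rfl | hn
    · rw [b0]
      simp
    · have hln : 0 ≤ Real.log n := Real.log_nonneg (by exact_mod_cast hn)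
      rw [Wi_line ha0.le h.le (div_nonneg hln hτ.le) hA1]
      field_simp
  simp_rw [hterm] at hmain
  rw [tsum_mul_left.symm, hmain.tsum_eq]
  refine integral_congr_ae (Filter.Eventually.of_forall fun r => ?_)
  simp only []
  rw [← tsum_mul_left]
  refine tsum_congr fun n => ?_
  simp only [hF]
  rcases Nat.eq_zero_or_pos n with rfl | hn
  · rw [b0]
    simp
  · rw [term_eq φ τ a A r hn.ne']
    ring

end Pool.Agent.Helper87.VP
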