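import Mathlib
import Pool.Agent.Helper87.VP.Fu
import Pool.Agent.Helper71.UP.Abel

set_option autoImplicit false

/-!
# Abel summation against the turned weights
-/

open MeasureTheory Set Complex Filter Topology

namespace Pool.Agent.Helper87.VP

open Pool.Agent.Helper5.UP
open Pool.Agent.Helper71.UP (abel_abs sum_Icc_eq)

theorem exp_sub_le {z : ℂ} {ρ c u v : ℝ} (hz : ‖z‖ ≤ ρ) (hc : 0 < c) (hcz : c ≤ z.re)
    (hu : 0 ≤ u) (huv : u ≤ v) :
    ‖cexp (-(u * z)) - cexp (-(v * z))‖ ≤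
      ρ / c * Real.exp (-(c * u)) - ρ / c * Real.exp (-(c * v)) := by
  have hder : ∀ x : ℝ, HasDerivAt (fun x : ℝ => cexp (-(x * z)) - cexp (-(u * z)))
      (cexp (-(x * z)) * -z) x := by
    intro x
    have h1 : HasDerivAt (fun w : ℂ => cexp (-(w * z))) (cexp (-(x * z)) * -(1 * z)) (x : ℂ) :=
      ((hasDerivAt_id (x : ℂ)).mul_const z).neg.cexp
    have h3 := h1.comp_ofReal
    rw [one_mul] at h3
    exact h3.sub_const _
  have hB : ∀ x : ℝ, HasDerivAt (fun x : ℝ => ρ / c * Real.exp (-(c * u))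
      - ρ / c * Real.exp (-(c * x))) (ρ * Real.exp (-(c * x))) x := by
    intro x
    have h1 : HasDerivAt (fun x : ℝ => -(c * x)) (-(c * 1)) x :=
      ((hasDerivAt_id x).const_mul c).neg
    have h2 := ((h1.exp.const_mul (ρ / c)).const_sub (ρ / c * Real.exp (-(c * u))))
    refine h2.congr_deriv ?_
    have h3 : ρ / c * c = ρ := div_mul_cancel₀ ρ hc.ne'
    linear_combination Real.exp (-(c * x)) * h3
  have key := image_norm_le_of_norm_deriv_right_le_deriv_boundary (a := u) (b := v)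
    (f := fun x : ℝ => cexp (-(x * z)) - cexp (-(u * z)))
    (f' := fun x : ℝ => cexp (-(x * z)) * -z)
    (fun x _ => (hder x).continuousAt.continuousWithinAt)
    (fun x _ => (hder x).hasDerivWithinAt)
    (B := fun x : ℝ => ρ / c * Real.exp (-(c * u)) - ρ / c * Real.exp (-(c * x)))
    (B' := fun x : ℝ => ρ * Real.exp (-(c * x))) (by simp) hB ?_ (x := v)
    (right_mem_Icc.mpr huv)
  · rw [norm_sub_rev] at key
    exact key
  · intro x hx
    have hx0 : 0 ≤ x := hu.trans hx.1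
    rw [norm_mul, norm_neg, Complex.norm_exp, neg_re, Complex.re_ofReal_mul, mul_comm]
    have h1 : Real.exp (-(x * z.re)) ≤ Real.exp (-(c * x)) := by
      refine Real.exp_le_exp.mpr ?_
      have := mul_le_mul_of_nonneg_left hcz hx0
      linarith
    exact mul_le_mul hz h1 (Real.exp_pos _).le ((norm_nonneg _).trans hz)

/-- The constant of the variation bound. -/
noncomputable def KV (a : ℝ) : ℝ :=
  Real.pi⁻¹ * ∫ r : ℝ, ‖wker 1 r‖ * (Real.exp (a * 1) * (1 + r ^ 2) ^ a)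

theorem KV_nonneg (a : ℝ) : 0 ≤ KV a := by
  have := Real.pi_pos
  refine mul_nonneg (inv_nonneg.mpr this.le) (integral_nonneg fun r => ?_)
  positivity

theorem integrable_KV (a : ℝ) :
    Integrable fun r : ℝ => ‖wker 1 r‖ * (Real.exp (a * 1) * (1 + r ^ 2) ^ a) := by
  refine (integrable_exp_w (a : ℂ) 1).norm.congr (Filter.Eventually.of_forall fun r => ?_)
  show ‖wker 1 r * cexp ((a : ℂ) * (((1 : ℝ) : ℂ) + gw r))‖ = _
  rw [norm_mul, norm_ea]

theorem re_ge {a φ : ℝ} (ha : 0 ≤ a) (h : |φ| + Real.pi * a < Real.pi / 2) (r : ℝ) :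
    cs a φ ≤ (tz φ 1 * cexp (a * (((1 : ℝ) : ℂ) + gw r))).re := by
  have hpi := Real.pi_pos
  have h1 := re_tz_mul (φ := φ) ha (by linarith) zero_le_one (abs_im_le 1 r)
  have h2 : (1 : ℝ) ≤ Real.exp (a * (((1 : ℝ) : ℂ) + gw r).re) := by
    refine Real.one_le_exp (mul_nonneg ha ?_)
    rw [add_re, ofReal_re, gw_re]
    have := Real.log_nonneg (show (1 : ℝ) ≤ 1 + r ^ 2 by nlinarith [sq_nonneg r])
    linarith
  have hc := cs_pos ha h
  calc cs a φ = Real.cos (|φ| + Real.pi * a) * 1 * 1 := by rw [cs]; ring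
    _ ≤ Real.cos (|φ| + Real.pi * a) * 1 * Real.exp (a * (((1 : ℝ) : ℂ) + gw r).re) := by
        refine mul_le_mul_of_nonneg_left h2 ?_
        rw [mul_one]
        exact hc.le
    _ ≤ _ := h1

theorem integrable_Wi {a φ : ℝ} (ha : 0 ≤ a) (h : |φ| + Real.pi * a < Real.pi / 2) {u : ℝ}
    (hu : 0 ≤ u) :
    Integrable fun r : ℝ => wker 1 r * cexp (-(tz φ u * cexp (a * (((1 : ℝ) : ℂ) + gw r)))) := by
  have hgc := continuous_gw
  have hwc := continuous_wker 1
  have h0 := (integrable_exp_w (0 : ℂ) 1).norm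
  refine h0.mono' (by fun_prop) (Filter.Eventually.of_forall fun r => ?_)
  rw [norm_mul, norm_mul, zero_mul, Complex.exp_zero, norm_one]
  refine mul_le_mul_of_nonneg_left ?_ (norm_nonneg _)
  rw [Complex.norm_exp, Real.exp_le_one_iff, neg_re, neg_nonpos]
  have h1 := re_ge ha h r
  have hc := cs_pos ha h
  have e : tz φ u * cexp (a * (((1 : ℝ) : ℂ) + gw r)) =
      ((u : ℝ) : ℂ) * (tz φ 1 * cexp (a * (((1 : ℝ) : ℂ) + gw r))) := by
    rw [tz, tz]; push_cast; ring
  rw [e, Complex.re_ofReal_mul]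
  exact mul_nonneg hu (hc.le.trans h1)

/-- The variation of the weight between two points. -/
theorem Wi_sub_le {a φ : ℝ} (ha : 0 ≤ a) (h : |φ| + Real.pi * a < Real.pi / 2) {u v : ℝ}
    (hu : 0 ≤ u) (huv : u ≤ v) :
    ‖Wi a (tz φ u) - Wi a (tz φ v)‖ ≤ KV a / cs a φ * Real.exp (-(cs a φ * u)) -
      KV a / cs a φ * Real.exp (-(cs a φ * v)) := by
  have hc := cs_pos ha h
  have hpi := Real.pi_pos
  have hv : 0 ≤ v := hu.trans huv
  rw [Wi, Wi, ← mul_sub, ← integral_sub (integrable_Wi ha h hu) (integrable_Wi ha h hv), norm_mul,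
    norm_inv, Complex.norm_real, Real.norm_of_nonneg hpi.le]
  have hb : ∀ r : ℝ, ‖wker 1 r * cexp (-(tz φ u * cexp (a * (((1 : ℝ) : ℂ) + gw r)))) -
      wker 1 r * cexp (-(tz φ v * cexp (a * (((1 : ℝ) : ℂ) + gw r))))‖ ≤
      ‖wker 1 r‖ * (Real.exp (a * 1) * (1 + r ^ 2) ^ a) *
        (1 / cs a φ * Real.exp (-(cs a φ * u)) - 1 / cs a φ * Real.exp (-(cs a φ * v))) := by
    intro r
    have e : ∀ u : ℝ, tz φ u * cexp (a * (((1 : ℝ) : ℂ) + gw r)) =
        ((u : ℝ) : ℂ) * (tz φ 1 * cexp (a * (((1 : ℝ) : ℂ) + gw r))) := by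
      intro u
      rw [tz, tz]; push_cast; ring
    rw [← mul_sub, norm_mul, e u, e v, mul_assoc]
    refine mul_le_mul_of_nonneg_left ?_ (norm_nonneg _)
    have hz : ‖tz φ 1 * cexp (a * (((1 : ℝ) : ℂ) + gw r))‖ ≤
        Real.exp (a * 1) * (1 + r ^ 2) ^ a := by
      rw [norm_mul, norm_ea, tz, norm_mul, Complex.norm_exp_ofReal_mul_I]
      simp
    refine (exp_sub_le hz hc (re_ge ha h r) hu huv).trans (le_of_eq ?_)
    ring
  have h1 := norm_integral_le_of_norm_le ((integrable_KV a).mul_const _)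
    (Filter.Eventually.of_forall hb)
  rw [integral_mul_const] at h1
  refine (mul_le_mul_of_nonneg_left h1 (inv_nonneg.mpr hpi.le)).trans (le_of_eq ?_)
  rw [KV]
  ring

theorem Wi_zero {a : ℝ} (ha0 : 0 < a) (ha1 : a < 1) : Wi a 0 = 1 := by
  rw [Wi_eq_Ws ha0 ha1, Ws, tsum_eq_single 0]
  · simp
  · intro j hj
    rw [neg_zero, zero_pow hj, zero_div, zero_mul]

theorem tz_zero (φ : ℝ) : tz φ 0 = 0 := by
  simp [tz]

/-- Abel's theorem for the turned weights. -/
theorem abel_V {d : ℕ → ℝ} {s : ℝ} (d0 : d 0 = 0)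
    (hs : Tendsto (fun x : ℕ => ∑ n ∈ Finset.Icc 1 x, d n) atTop (𝓝 s))
    {a φ : ℝ} (ha0 : 0 < a) (h : |φ| + Real.pi * a < Real.pi / 2) :
    Tendsto (fun τ : ℝ => ∑' n : ℕ, d n * (Wi a (tz φ (Real.log n / τ))).re) atTop (𝓝 s) := by
  have hpi := Real.pi_pos
  have ha1 : a < 1 := by
    have := abs_nonneg φ
    by_contra hcon
    have h3 : Real.pi * 1 ≤ Real.pi * a := mul_le_mul_of_nonneg_left (not_lt.mp hcon) hpi.le
    linarith
  set c := cs a φ with hcd
  have hc : 0 < c := cs_pos ha0.le h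
  set C : ℝ := KV a with hCd
  have hC0 : 0 ≤ C := KV_nonneg a
  have hs' : Tendsto (fun x : ℕ => ∑ n ∈ Finset.range (x + 1), d n) atTop (𝓝 s) := by
    simpa only [sum_Icc_eq d d0] using hs
  have hR : Tendsto (fun x : ℕ => (∑ n ∈ Finset.range (x + 1), d n) - s) atTop (𝓝 0) := by
    simpa using hs'.sub_const s
  obtain ⟨M, hM⟩ : ∃ M : ℝ, ∀ n : ℕ, |(∑ k ∈ Finset.range (n + 1), d k) - s| ≤ M := by
    obtain ⟨M, hM⟩ := hR.norm.bddAbove_range
    exact ⟨M, fun n => hM ⟨n, rfl⟩⟩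
  have hM0 : 0 ≤ M := (abs_nonneg _).trans (hM 0)
  have hK : ∀ n, |d n| ≤ 2 * M + |s| := by
    intro n
    rcases n with _ | n
    · rw [d0]; simp; positivity
    · have h1 := hM (n + 1)
      have h2 := hM n
      rw [Finset.sum_range_succ] at h1
      have h3 : d (n + 1) = (∑ k ∈ Finset.range (n + 1), d k + d (n + 1) - s)
          - ((∑ k ∈ Finset.range (n + 1), d k) - s) := by ring
      rw [h3]
      have h4 := abs_sub (∑ k ∈ Finset.range (n + 1), d k + d (n + 1) - s)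
        ((∑ k ∈ Finset.range (n + 1), d k) - s)
      have h5 := abs_nonneg s
      linarith
  rw [Metric.tendsto_atTop']
  intro e he
  set ε : ℝ := e / (2 * (C / c) + 1) with hεdef
  have hε0 : 0 < ε := by positivity
  obtain ⟨N0, hN0⟩ := (Metric.tendsto_atTop.mp hR) ε hε0
  have hN0' : ∀ n : ℕ, N0 + 1 ≤ n → |(∑ k ∈ Finset.range (n + 1), d k) - s| ≤ ε := by
    intro n hn
    have := hN0 n (by omega)
    rw [Real.dist_eq, sub_zero] at this
    exact this.le
  have hfin : ∀ᶠ τ : ℝ in atTop, M * (C / τ * Real.log ((N0 + 1 : ℕ) : ℝ)) < e / 2 := by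
    have h1 : Tendsto (fun τ : ℝ => M * (C / τ * Real.log ((N0 + 1 : ℕ) : ℝ))) atTop
        (𝓝 (M * (0 * Real.log ((N0 + 1 : ℕ) : ℝ)))) :=
      ((tendsto_const_nhds.div_atTop tendsto_id).mul_const _).const_mul M
    rw [zero_mul, mul_zero] at h1
    exact h1.eventually_lt_const (by positivity)
  obtain ⟨T0, hT0⟩ := eventually_atTop.mp (hfin.and (eventually_gt_atTop 0))
  refine ⟨T0, fun τ hτT => ?_⟩
  obtain ⟨hf, hτ⟩ := hT0 τ hτT.le
  have hsum : Summable fun n : ℕ => d n * (Wi a (tz φ (Real.log n / τ))).re := by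
    refine Summable.of_norm_bounded (summable_Wi_bdd d0 hK ha0 h hτ) fun n => ?_
    rw [norm_mul, Real.norm_eq_abs]
    exact mul_le_mul_of_nonneg_left (Complex.abs_re_le_norm _) (abs_nonneg _)
  have hlogn : ∀ n : ℕ, 0 ≤ Real.log (n : ℝ) := by
    intro n
    rcases n with _ | n
    · simp
    · exact Real.log_nonneg (by exact_mod_cast Nat.le_add_left 1 n)
  have hlogm : ∀ n : ℕ, Real.log (n : ℝ) ≤ Real.log ((n + 1 : ℕ) : ℝ) := by
    intro n
    rcases n with _ | n
    · simp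
    · exact Real.log_le_log (by exact_mod_cast Nat.succ_pos n) (by exact_mod_cast Nat.le_succ _)
  have hw0 : Tendsto (fun n : ℕ => (Wi a (tz φ (Real.log n / τ))).re) atTop (𝓝 0) := by
    have h1 : Tendsto (fun n : ℕ => Real.exp (Real.exp 1 -
        c * (Real.log n / τ) * Real.exp (a * 1))) atTop (𝓝 0) := by
      have h3 : Tendsto (fun n : ℕ => Real.log (n : ℝ)) atTop atTop :=
        Real.tendsto_log_atTop.comp tendsto_natCast_atTop_atTop
      have h4 : Tendsto (fun n : ℕ => (c / τ * Real.exp (a * 1)) * Real.log (n : ℝ)) atTop atTop :=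
        h3.const_mul_atTop (by positivity)
      have h5 : Tendsto (fun n : ℕ => Real.exp 1 + -((c / τ * Real.exp (a * 1)) *
          Real.log (n : ℝ))) atTop atBot :=
        tendsto_atBot_add_const_left _ _ (tendsto_neg_atTop_atBot.comp h4)
      refine (Real.tendsto_exp_atBot.comp h5).congr fun n => ?_
      show Real.exp _ = _
      congr 1
      ring
    refine squeeze_zero_norm' ?_ h1
    filter_upwards with n
    refine (Complex.abs_re_le_norm _).trans ?_
    exact norm_Wi_le ha0.le h.le (div_nonneg (hlogn n) hτ.le) le_rfl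
  have key := abel_abs (a := d) (w := fun n : ℕ => (Wi a (tz φ (Real.log n / τ))).re)
    (D := fun n : ℕ => C / c * Real.exp (-(c * (Real.log n / τ)))) (s := s) (M := M) (ε := ε)
    (N0 := N0 + 1) d0 hsum.hasSum.tendsto_sum_nat hM hε0.le hN0'
    (fun n => by
      have h1 := Wi_sub_le ha0.le h (div_nonneg (hlogn n) hτ.le)
        (div_le_div_of_nonneg_right (hlogm n) hτ.le)
      refine le_trans ?_ h1
      rw [← sub_re]
      exact Complex.abs_re_le_norm _) (fun n => by positivity) hw0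
  simp only [Nat.cast_zero, Real.log_zero, zero_div, mul_zero, neg_zero, Real.exp_zero, mul_one,
    tz_zero, Wi_zero ha0 ha1, one_re] at key
  rw [Real.dist_eq]
  refine key.trans_lt ?_
  have hdiff : C / c - C / c * Real.exp (-(c * (Real.log ((N0 + 1 : ℕ) : ℝ) / τ)))
      ≤ C / τ * Real.log ((N0 + 1 : ℕ) : ℝ) := by
    have h1 : 1 - c * (Real.log ((N0 + 1 : ℕ) : ℝ) / τ)
        ≤ Real.exp (-(c * (Real.log ((N0 + 1 : ℕ) : ℝ) / τ))) := by
      have := Real.add_one_le_exp (-(c * (Real.log ((N0 + 1 : ℕ) : ℝ) / τ)))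
      linarith
    have h2 : C / c * (1 - Real.exp (-(c * (Real.log ((N0 + 1 : ℕ) : ℝ) / τ))))
        ≤ C / c * (c * (Real.log ((N0 + 1 : ℕ) : ℝ) / τ)) :=
      mul_le_mul_of_nonneg_left (by linarith) (by positivity)
    have h3 : C / c * (c * (Real.log ((N0 + 1 : ℕ) : ℝ) / τ))
        = C / τ * Real.log ((N0 + 1 : ℕ) : ℝ) := by
      field_simp
    linarith
  have h7 : M * (C / c - C / c * Real.exp (-(c * (Real.log ((N0 + 1 : ℕ) : ℝ) / τ))))
      ≤ M * (C / τ * Real.log ((N0 + 1 : ℕ) : ℝ)) := mul_le_mul_of_nonneg_left hdiff hM0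
  have h9 : ε * (C / c) < e / 2 := by
    have hCc : 0 ≤ C / c := by positivity
    rw [hεdef, div_mul_eq_mul_div, div_lt_iff₀ (by positivity)]
    nlinarith
  linarith

end Pool.Agent.Helper87.VP
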