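import Mathlib
import Pool.Agent.Helper4.UT.P3d

set_option autoImplicit false

/-!
# The logarithm on a turned sector
-/

open Complex Set Filter Topology Metric

namespace Pool.Agent.Helper87.VP

/-- The open sector `|Im v| < T Re v`. -/
def Sc (T : ℝ) : Set ℂ := {v : ℂ | |v.im| < T * v.re}

theorem isOpen_Sc (T : ℝ) : IsOpen (Sc T) :=
  isOpen_lt (continuous_abs.comp Complex.continuous_im) (continuous_const.mul Complex.continuous_re)

theorem convex_Sc (T : ℝ) : Convex ℝ (Sc T) := by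
  intro x hx y hy s t hs ht hst
  have hx' : |x.im| < T * x.re := hx
  have hy' : |y.im| < T * y.re := hy
  show |(s • x + t • y).im| < T * (s • x + t • y).re
  simp only [Complex.add_im, Complex.add_re, Complex.smul_im, Complex.smul_re, smul_eq_mul]
  have h1 : |s * x.im + t * y.im| ≤ s * |x.im| + t * |y.im| := by
    refine (abs_add_le _ _).trans (le_of_eq ?_)
    rw [abs_mul, abs_mul, abs_of_nonneg hs, abs_of_nonneg ht]
  rcases hs.eq_or_lt with h0 | h0
  · have ht1 : t = 1 := by linarith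
    subst h0 ht1
    simpa using hy'
  · have h2 := mul_lt_mul_of_pos_left hx' h0
    have h3 := mul_le_mul_of_nonneg_left hy'.le ht
    nlinarith

theorem re_pos_of_mem {T : ℝ} (hT : 0 < T) {v : ℂ} (hv : v ∈ Sc T) : 0 < v.re := by
  have h : |v.im| < T * v.re := hv
  have h2 := (abs_nonneg _).trans_lt h
  exact (mul_pos_iff_of_pos_left hT).mp h2

theorem region {f B : ℂ → ℂ} (hf : Differentiable ℂ f)
    (hB : DifferentiableOn ℂ B {z : ℂ | 1 / 2 < z.re})
    (hexp : ∀ z : ℂ, 1 / 2 < z.re → exp (B z) = f z)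
    (hbd : ∃ K : ℝ, ∀ z : ℂ, 1 ≤ z.re → ‖B z‖ ≤ K)
    {m : ℕ} {f₁ : ℂ → ℂ} (hf₁ : Differentiable ℂ f₁) (h1 : f₁ 0 ≠ 0)
    (hfac : ∀ z, f z = z ^ m * f₁ z)
    {φ T T' κ : ℝ} (hT : 0 < T) (hTT : T < T')
    (hne : ∀ v ∈ Sc T', f (exp (φ * I) * v) ≠ 0) (hκ : 0 < κ)
    (hcos : ∀ v ∈ Sc T', κ * ‖v‖ ≤ (exp (φ * I) * v).re) :
    ∃ (L : ℂ → ℂ) (c : ℂ) (K : ℝ), 0 ≤ K ∧ c.re = Real.log ‖f₁ 0‖ ∧ DifferentiableOn ℂ L (Sc T) ∧
      (∀ v ∈ Sc T, 1 / 2 < (exp (φ * I) * v).re → L v = B (exp (φ * I) * v)) ∧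
      ∀ v ∈ Sc T, ‖L v - (m * log v + c)‖ ≤ K * ‖v‖ := by
  have hT' : 0 < T' := hT.trans hTT
  have hsub : Sc T ⊆ Sc T' := by
    intro v hv
    have h2 := re_pos_of_mem hT hv
    have h3 : |v.im| < T * v.re := hv
    show |v.im| < T' * v.re
    nlinarith
  set e : ℂ := exp (φ * I) with he
  have hen : ‖e‖ = 1 := norm_exp_ofReal_mul_I φ
  have hnorm : ∀ v : ℂ, ‖e * v‖ = ‖v‖ := fun v => by rw [norm_mul, hen, one_mul]
  -- the logarithm
  have hVconv : Convex ℝ (Sc T' ∩ {v : ℂ | 1 / 2 < (e * v).re}) := by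
    refine (convex_Sc T').inter ?_
    intro x hx y hy s t hs ht hst
    have hx' : 1 / 2 < (e * x).re := hx
    have hy' : 1 / 2 < (e * y).re := hy
    show 1 / 2 < (e * (s • x + t • y)).re
    have e1 : (e * (s • x + t • y)).re = s * (e * x).re + t * (e * y).re := by
      simp only [mul_add, Complex.add_re, Complex.mul_re, Complex.smul_re, Complex.smul_im,
        smul_eq_mul]
      ring
    rw [e1]
    have ht2 : t = 1 - s := by linarith
    rcases hs.eq_or_lt with h0 | h0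
    · subst h0
      rw [ht2]
      linarith
    · have h2 := mul_lt_mul_of_pos_left hx' h0
      have h3 := mul_le_mul_of_nonneg_left hy'.le ht
      rw [ht2] at h3 ⊢
      linarith
  obtain ⟨G, hG1, hG2, hG3⟩ := Helper4.UT.exists_log (isOpen_Sc T') (convex_Sc T')
    (f := fun v => f (e * v)) (hf.comp (differentiable_const e |>.mul differentiable_id)).differentiableOn
    hne (V := Sc T' ∩ {v : ℂ | 1 / 2 < (e * v).re}) hVconv.isPreconnected inter_subset_left
    ⟨((κ⁻¹ : ℝ) : ℂ), by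
      have h2 : ((κ⁻¹ : ℝ) : ℂ) ∈ Sc T' := by
        show |((κ⁻¹ : ℝ) : ℂ).im| < T' * ((κ⁻¹ : ℝ) : ℂ).re
        rw [ofReal_im, ofReal_re, abs_zero]
        positivity
      refine ⟨h2, ?_⟩
      have h3 := hcos _ h2
      rw [Complex.norm_real, Real.norm_of_nonneg (by positivity), mul_inv_cancel₀ hκ.ne'] at h3
      show 1 / 2 < (e * ((κ⁻¹ : ℝ) : ℂ)).re
      linarith⟩
    (L := fun v => B (e * v))
    (hB.continuousOn.comp (by fun_prop) (fun v hv => hv.2)) (fun v hv => hexp _ hv.2)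
  obtain ⟨Λ, ρ, C₂, hρ, hC₂, hΛc, hΛe, hΛ0, hΛb⟩ := Helper4.UT.near_zero hf₁ h1
  -- comparison near zero
  set V2 : Set ℂ := Sc T' ∩ ball 0 ρ with hV2
  have hV2c : IsPreconnected V2 := ((convex_Sc T').inter (convex_ball _ _)).isPreconnected
  set D : ℂ → ℂ := fun v => m * (log v + φ * I) + Λ (e * v) with hD
  have hball : ∀ v ∈ V2, e * v ∈ ball (0 : ℂ) ρ := by
    intro v hv
    rw [mem_ball_zero_iff, hnorm]
    exact mem_ball_zero_iff.mp hv.2
  have hDe : ∀ v ∈ V2, exp (D v) = f (e * v) := by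
    intro v hv
    have hv0 : v ≠ 0 := by
      rintro rfl
      have := re_pos_of_mem hT' hv.1
      simp at this
    simp only [hD]
    rw [exp_add, hΛe _ (hball v hv), exp_nat_mul, exp_add, exp_log hv0, hfac, mul_comm v]
  have hDc : ContinuousOn D V2 := by
    simp only [hD]
    refine ContinuousOn.add ?_ (hΛc.comp (by fun_prop) hball)
    refine continuousOn_const.mul (ContinuousOn.add ?_ continuousOn_const)
    intro v hv
    exact (continuousAt_clog (Or.inl (re_pos_of_mem hT' hv.1))).continuousWithinAt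
  obtain ⟨v0, hv0⟩ : V2.Nonempty := by
    refine ⟨((ρ / 2 : ℝ) : ℂ), ?_, ?_⟩
    · show |((ρ / 2 : ℝ) : ℂ).im| < T' * ((ρ / 2 : ℝ) : ℂ).re
      rw [ofReal_im, ofReal_re, abs_zero]
      positivity
    · rw [mem_ball_zero_iff, Complex.norm_real, Real.norm_of_nonneg (by positivity)]
      linarith
  have hconst := fun v (hv : v ∈ V2) => Helper9.BSDL2.log_diff_const hV2c
    (G := G) (L := D) (hG1.continuousOn.mono inter_subset_left) hDc (fun v hv => by
      rw [hDe v hv]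
      exact hG2 v hv.1) hv hv0
  set κ0 : ℂ := G v0 - D v0 with hκ0
  have hκe : exp κ0 = 1 := by
    rw [hκ0, exp_sub, hDe v0 hv0, hG2 v0 hv0.1]
    exact div_self (hne v0 hv0.1)
  have hκre : κ0.re = 0 := by
    have := congrArg norm hκe
    rw [norm_exp, norm_one, Real.exp_eq_one_iff] at this
    exact this
  set c : ℂ := m * (φ * I) + Λ 0 + κ0 with hc
  have hcre : c.re = Real.log ‖f₁ 0‖ := by
    rw [hc, add_re, add_re, hκre, hΛ0]
    simp
  obtain ⟨KB, hKB⟩ := hbd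
  -- the compact part
  set R : ℝ := κ⁻¹ with hR
  set Kc : Set ℂ := {v : ℂ | |v.im| ≤ T * v.re ∧ ρ ≤ ‖v‖} ∩ closedBall 0 R with hKc
  have hKcc : IsCompact Kc := by
    refine (isCompact_closedBall (0 : ℂ) R).inter_left ?_
    have q1 : IsClosed {v : ℂ | |v.im| ≤ T * v.re} :=
      isClosed_le (continuous_abs.comp Complex.continuous_im)
        (continuous_const.mul Complex.continuous_re)
    have q2 : IsClosed {v : ℂ | ρ ≤ ‖v‖} := isClosed_le continuous_const continuous_norm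
    exact q1.inter q2
  have hKcs : Kc ⊆ Sc T' := by
    rintro v ⟨⟨h2, h3⟩, -⟩
    have hre : 0 ≤ v.re := by
      have := (abs_nonneg _).trans h2
      exact nonneg_of_mul_nonneg_right this hT
    have hre' : v.re ≠ 0 := by
      intro h0
      rw [h0, mul_zero] at h2
      have him : v.im = 0 := abs_nonpos_iff.mp h2
      have : v = 0 := Complex.ext h0 him
      rw [this, norm_zero] at h3
      linarith
    have hre2 : 0 < v.re := lt_of_le_of_ne hre hre'.symm
    show |v.im| < T' * v.re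
    nlinarith
  obtain ⟨CK, hCK⟩ := hKcc.exists_bound_of_continuousOn (hG1.continuousOn.mono hKcs)
  set C3 : ℝ := |CK| + |KB| with hC3
  have hfar : ∀ v ∈ Sc T, ρ ≤ ‖v‖ → ‖G v‖ ≤ C3 := by
    intro v hv hvρ
    by_cases h : ‖v‖ ≤ R
    · have h2 := hCK v ⟨⟨le_of_lt hv, hvρ⟩, mem_closedBall_zero_iff.mpr h⟩
      have := abs_nonneg KB
      exact h2.trans ((le_abs_self _).trans (by rw [hC3]; linarith))
    · have h2 := hcos v (hsub hv)
      have h3 : 1 ≤ (e * v).re := by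
        refine le_trans ?_ h2
        rw [not_le, hR] at h
        have := mul_lt_mul_of_pos_left h hκ
        rw [mul_inv_cancel₀ hκ.ne'] at this
        exact this.le
      rw [hG3 v ⟨hsub hv, show 1 / 2 < (e * v).re by linarith⟩]
      have := abs_nonneg CK
      exact (hKB _ h3).trans ((le_abs_self _).trans (by rw [hC3]; linarith))
  have hC30 : 0 ≤ C3 := by positivity
  refine ⟨G, c, C₂ + (C3 + ‖c‖ + m * (ρ⁻¹ + 4)) / ρ + m, by positivity, hcre, hG1.mono hsub,
    fun v hv h => hG3 v ⟨hsub hv, h⟩, ?_⟩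
  intro v hv
  have hvre := re_pos_of_mem hT hv
  have hvn : 0 < ‖v‖ := hvre.trans_le (Complex.re_le_norm v)
  by_cases hvρ : ‖v‖ < ρ
  · have hvV : v ∈ V2 := ⟨hsub hv, mem_ball_zero_iff.mpr hvρ⟩
    have h2 : G v - (m * log v + c) = Λ (e * v) - Λ 0 := by
      have h3 := hconst v hvV
      have h4 : D v = m * (log v + φ * I) + Λ (e * v) := rfl
      rw [h4] at h3
      rw [hc]
      linear_combination h3
    rw [h2]
    have h3 := hΛb _ (hball v hvV)
    rw [hnorm] at h3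
    refine h3.trans ?_
    refine mul_le_mul_of_nonneg_right ?_ hvn.le
    have : 0 ≤ (C3 + ‖c‖ + m * (ρ⁻¹ + 4)) / ρ := by positivity
    have := Nat.cast_nonneg (α := ℝ) m
    linarith
  · rw [not_lt] at hvρ
    have h2 := hfar v hv hvρ
    have h3 : ‖log v‖ ≤ ‖v‖ + (ρ⁻¹ + 4) := by
      refine (Complex.norm_le_abs_re_add_abs_im _).trans ?_
      rw [log_re, log_im]
      have h4 : |arg v| ≤ 4 := (abs_arg_le_pi v).trans Real.pi_le_four
      have h5 : |Real.log ‖v‖| ≤ ‖v‖ + ρ⁻¹ := by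
        have hi : (0 : ℝ) < ρ⁻¹ := by positivity
        rw [abs_le]
        constructor
        · have h6 := Real.one_sub_inv_le_log_of_pos hvn
          have h7 : ‖v‖⁻¹ ≤ ρ⁻¹ := inv_anti₀ hρ hvρ
          linarith
        · have h6 := Real.log_le_sub_one_of_pos hvn
          linarith
      linarith
    have h4 : ‖G v - (m * log v + c)‖ ≤ C3 + (m * (‖v‖ + (ρ⁻¹ + 4)) + ‖c‖) := by
      refine (norm_sub_le _ _).trans (add_le_add h2 ?_)
      refine (norm_add_le _ _).trans (add_le_add_left ?_ _)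
      rw [norm_mul, Complex.norm_natCast]
      exact mul_le_mul_of_nonneg_left h3 (Nat.cast_nonneg m)
    have h5 : C3 + ‖c‖ + m * (ρ⁻¹ + 4) ≤ (C3 + ‖c‖ + m * (ρ⁻¹ + 4)) / ρ * ‖v‖ := by
      rw [div_mul_eq_mul_div, le_div_iff₀ hρ]
      exact mul_le_mul_of_nonneg_left hvρ (by positivity)
    have h6 : 0 ≤ C₂ * ‖v‖ := by positivity
    have h7 : (C₂ + (C3 + ‖c‖ + m * (ρ⁻¹ + 4)) / ρ + m) * ‖v‖ =
        C₂ * ‖v‖ + (C3 + ‖c‖ + m * (ρ⁻¹ + 4)) / ρ * ‖v‖ + m * ‖v‖ := by ring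
    rw [h7]
    linarith

end Pool.Agent.Helper87.VP
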