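import Mathlib
import Pool.Agent.Helper87.VP.Rg

set_option autoImplicit false

/-!
# The sector, and the zeros near the real axis
-/

open MeasureTheory Set Complex Filter Topology

namespace Pool.Agent.Helper87.VP

/-- Polar form of the points of the sector. -/
theorem sec_polar {ψ : ℝ} (h0 : 0 < ψ) (h1 : ψ < Real.pi / 2) {v : ℂ}
    (hv : v ∈ Sc (Real.tan ψ)) :
    0 < ‖v‖ ∧ ∃ β : ℝ, |β| < ψ ∧ v = ‖v‖ * cexp (β * I) := by
  have hT := Real.tan_pos_of_pos_of_lt_pi_div_two h0 h1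
  have hre := re_pos_of_mem hT hv
  have hn : 0 < ‖v‖ := hre.trans_le (Complex.re_le_norm v)
  refine ⟨hn, Complex.arg v, ?_, (Complex.norm_mul_exp_arg_mul_I v).symm⟩
  have hab : |Complex.arg v| < Real.pi / 2 := Complex.abs_arg_lt_pi_div_two_iff.mpr (Or.inl hre)
  obtain ⟨ha, hb⟩ := abs_lt.mp hab
  have ht : |Real.tan (Complex.arg v)| < Real.tan ψ := by
    rw [Complex.tan_arg, abs_div, abs_of_pos hre, div_lt_iff₀ hre]
    exact hv
  rw [abs_lt, ← Real.tan_neg] at ht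
  have mem : ∀ x, -(Real.pi / 2) < x → x < Real.pi / 2 → x ∈ Ioo (-(Real.pi / 2)) (Real.pi / 2) :=
    fun x hx hy => ⟨hx, hy⟩
  rw [abs_lt]
  constructor
  · by_contra hcon
    have h5 : Real.tan (Complex.arg v) ≤ Real.tan (-ψ) :=
      (Real.strictMonoOn_tan.le_iff_le (mem _ ha hb)
        (mem _ (by linarith) (by linarith))).mpr (not_lt.mp hcon)
    linarith [ht.1]
  · by_contra hcon
    have h5 : Real.tan ψ ≤ Real.tan (Complex.arg v) :=
      (Real.strictMonoOn_tan.le_iff_le (mem _ (by linarith) h1) (mem _ ha hb)).mpr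
        (not_lt.mp hcon)
    linarith [ht.2]

/-- Polar form of the points of the turned sector. -/
theorem sec_turn {φ ψ : ℝ} (h0 : 0 < ψ) (h1 : ψ < Real.pi / 2) {v : ℂ}
    (hv : v ∈ Sc (Real.tan ψ)) :
    0 < ‖v‖ ∧ ∃ θ : ℝ, φ - ψ < θ ∧ θ < φ + ψ ∧ cexp (φ * I) * v = ‖v‖ * cexp (θ * I) := by
  obtain ⟨hn, β, hβ, he⟩ := sec_polar h0 h1 hv
  obtain ⟨h2, h3⟩ := abs_lt.mp hβ
  refine ⟨hn, φ + β, by linarith, by linarith, ?_⟩
  nth_rewrite 1 [he]
  push_cast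
  rw [add_mul, Complex.exp_add]
  ring

theorem re_polar (r θ : ℝ) : ((r : ℂ) * cexp (θ * I)).re = r * Real.cos θ := by
  rw [Complex.re_ofReal_mul, Complex.exp_ofReal_mul_I_re]

theorem im_polar (r θ : ℝ) : ((r : ℂ) * cexp (θ * I)).im = r * Real.sin θ := by
  rw [Complex.im_ofReal_mul, Complex.exp_ofReal_mul_I_im]

/-- The real part on the turned sector. -/
theorem sec_cos {φ ψ : ℝ} (h0 : 0 < ψ) (h1 : ψ < Real.pi / 2) (h2 : 0 ≤ φ - ψ)
    (h3 : φ + ψ ≤ Real.pi) {v : ℂ} (hv : v ∈ Sc (Real.tan ψ)) :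
    Real.cos (φ + ψ) * ‖v‖ ≤ (cexp (φ * I) * v).re := by
  obtain ⟨hn, θ, h4, h5, he⟩ := sec_turn (φ := φ) h0 h1 hv
  rw [he, re_polar, mul_comm]
  exact mul_le_mul_of_nonneg_left
    (Real.cos_le_cos_of_nonneg_of_le_pi (by linarith) h3 h5.le) hn.le

/-- The zeros in the upper half of the unit disc do not come near the real axis. -/
theorem exists_gap {f : ℂ → ℂ} (hf : Differentiable ℂ f) {z1 : ℂ} (h1 : f z1 ≠ 0) :
    ∃ δ : ℝ, 0 < δ ∧ ∀ z : ℂ, ‖z‖ ≤ 1 → 0 < z.im → f z = 0 → δ ≤ z.im := by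
  by_contra hcon
  push Not at hcon
  have hu : ∀ n : ℕ, ∃ z : ℂ, ‖z‖ ≤ 1 ∧ 0 < z.im ∧ f z = 0 ∧ z.im < 1 / ((n : ℝ) + 1) :=
    fun n => hcon _ (by positivity)
  choose u hu1 hu2 hu3 hu4 using hu
  obtain ⟨w, -, g, hg, hlim⟩ := (isCompact_closedBall (0 : ℂ) 1).tendsto_subseq
    (x := u) (fun n => by rw [mem_closedBall_zero_iff]; exact hu1 n)
  have him : w.im = 0 := by
    have h2 : Tendsto (fun n => (u (g n)).im) atTop (𝓝 w.im) :=
      (Complex.continuous_im.tendsto w).comp hlim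
    have h3 : Tendsto (fun n => (u (g n)).im) atTop (𝓝 0) := by
      have h4 : Tendsto (fun n : ℕ => 1 / (((g n : ℕ) : ℝ) + 1)) atTop (𝓝 0) :=
        tendsto_one_div_add_atTop_nhds_zero_nat.comp hg.tendsto_atTop
      exact squeeze_zero (fun n => (hu2 _).le) (fun n => (hu4 _).le) h4
    exact tendsto_nhds_unique h2 h3
  have hne : ∀ n, (u ∘ g) n ∈ ({w}ᶜ : Set ℂ) := by
    intro n hn
    have h2 : u (g n) = w := hn
    have h3 := hu2 (g n)
    rw [h2, him] at h3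
    exact lt_irrefl _ h3
  have hlim2 : Tendsto (u ∘ g) atTop (𝓝[≠] w) :=
    tendsto_nhdsWithin_iff.mpr ⟨hlim, Filter.Eventually.of_forall hne⟩
  have hfreq : ∃ᶠ z in 𝓝[≠] w, f z = 0 :=
    hlim2.frequently (Filter.Frequently.of_forall fun n => hu3 _)
  have hA : AnalyticOnNhd ℂ f univ := fun z _ => hf.analyticAt z
  exact h1 (hA.eqOn_zero_of_preconnected_of_frequently_eq_zero isPreconnected_univ
    (mem_univ w) hfreq (mem_univ z1))

/-- For all small angles the sector is free of zeros. -/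
theorem exists_a {f : ℂ → ℂ} (hf : Differentiable ℂ f)
    (hne : ∀ z : ℂ, 1 / 2 < z.re → f z ≠ 0) :
    ∃ a0 : ℝ, 0 < a0 ∧ a0 ≤ 2 / 21 ∧ ∀ a : ℝ, a ≤ a0 → ∀ r θ : ℝ, 0 < r → 0 < θ →
      θ < 7 * Real.pi * a / 2 → f (r * cexp (θ * I)) ≠ 0 := by
  have hpi := Real.pi_pos
  obtain ⟨δ, hδ, hgap⟩ := exists_gap hf (hne 1 (by norm_num))
  refine ⟨min (δ / 12) (2 / 21), by positivity, min_le_right _ _, fun a ha r θ hr hθ0 hθ hz => ?_⟩
  have ha1 : a ≤ δ / 12 := ha.trans (min_le_left _ _)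
  have ha2 : a ≤ 2 / 21 := ha.trans (min_le_right _ _)
  have hθ3 : θ ≤ Real.pi / 3 := by nlinarith
  have hcos : 1 / 2 ≤ Real.cos θ := by
    rw [← Real.cos_pi_div_three]
    exact Real.cos_le_cos_of_nonneg_of_le_pi hθ0.le (by linarith) hθ3
  have hre : ((r : ℂ) * cexp (θ * I)).re ≤ 1 / 2 := by
    by_contra hcon
    exact hne _ (not_le.mp hcon) hz
  rw [re_polar] at hre
  have hr1 : r ≤ 1 := by nlinarith
  have hsin0 : 0 < Real.sin θ := Real.sin_pos_of_pos_of_lt_pi hθ0 (by linarith)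
  have hsin : Real.sin θ < θ := Real.sin_lt hθ0
  have hnorm : ‖(r : ℂ) * cexp (θ * I)‖ ≤ 1 := by
    rw [norm_mul, Complex.norm_exp_ofReal_mul_I, Complex.norm_real, Real.norm_of_nonneg hr.le,
      mul_one]
    exact hr1
  have him : 0 < ((r : ℂ) * cexp (θ * I)).im := by
    rw [im_polar]
    positivity
  have h5 := hgap _ hnorm him hz
  rw [im_polar] at h5
  have h6 : r * Real.sin θ ≤ 1 * Real.sin θ := mul_le_mul_of_nonneg_right hr1 hsin0.le
  have h7 : 7 * Real.pi * a / 2 < 12 * a := by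
    have ha0 : 0 < a := by
      by_contra hcon
      have : 7 * Real.pi * a / 2 ≤ 0 := by
        have := mul_nonneg hpi.le (neg_nonneg.mpr (not_lt.mp hcon))
        linarith
      linarith
    have h8 := Real.pi_lt_d2
    nlinarith
  linarith

end Pool.Agent.Helper87.VP
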