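import Mathlib
import Pool.Agent.Helper87.VP.Li
import Pool.Agent.Helper87.VP.Fu
import Pool.Agent.Helper87.VP.Rg
import Pool.Agent.Helper5.UP.Star

set_option autoImplicit false

/-!
# The asymptotic of the weighted sum, turned weights
-/

open MeasureTheory Set Complex Filter Topology

namespace Pool.Agent.Helper87.VP

open Pool.Agent.Helper5.UP
open Pool.Agent.Helper10.UP (HS)

/-- The scaled exponential maps the half strip to the sector. -/
theorem exp_mem_Sc {a τ : ℝ} (ha0 : 0 < a) (ha : a < 1 / 2) (hτ : 0 < τ) {w : ℂ} (hw : w ∈ HS) :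
    cexp (a * w) / τ ∈ Sc (Real.tan (Real.pi * a)) := by
  have hpi := Real.pi_pos
  have h1 : (a * w : ℂ).re = a * w.re := by simp
  have h2 : (a * w : ℂ).im = a * w.im := by simp
  have hlt : |a * w.im| < Real.pi * a := by
    rw [abs_mul, abs_of_pos ha0, mul_comm]
    exact mul_lt_mul_of_pos_right hw.2 ha0
  have hpa : Real.pi * a < Real.pi / 2 := by nlinarith
  have hcos : 0 < Real.cos (a * w.im) := by
    refine Real.cos_pos_of_mem_Ioo ⟨?_, ?_⟩
    · linarith [(abs_lt.mp hlt).1]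
    · linarith [(abs_lt.mp hlt).2]
  have htan : |Real.tan (a * w.im)| < Real.tan (Real.pi * a) := by
    rw [abs_lt, ← Real.tan_neg]
    obtain ⟨h3, h4⟩ := abs_lt.mp hlt
    constructor
    · exact Real.tan_lt_tan_of_lt_of_lt_pi_div_two (by linarith) (by linarith) h3
    · exact Real.tan_lt_tan_of_lt_of_lt_pi_div_two (by linarith) hpa h4
  have hd : ∀ z : ℂ, (z / τ).re = z.re / τ ∧ (z / τ).im = z.im / τ := fun z =>
    ⟨Complex.div_ofReal_re z τ, Complex.div_ofReal_im z τ⟩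
  show |(cexp (a * w) / τ).im| < Real.tan (Real.pi * a) * (cexp (a * w) / τ).re
  rw [(hd _).1, (hd _).2, Complex.exp_re, Complex.exp_im, h1, h2]
  have h5 : Real.exp (a * w.re) * Real.sin (a * w.im) / τ =
      Real.exp (a * w.re) / τ * Real.cos (a * w.im) * Real.tan (a * w.im) := by
    rw [Real.tan_eq_sin_div_cos]
    field_simp
  have h6 : 0 < Real.exp (a * w.re) / τ * Real.cos (a * w.im) := by positivity
  rw [h5, abs_mul, abs_of_pos h6]
  calc Real.exp (a * w.re) / τ * Real.cos (a * w.im) * |Real.tan (a * w.im)|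
      < Real.exp (a * w.re) / τ * Real.cos (a * w.im) * Real.tan (Real.pi * a) :=
        mul_lt_mul_of_pos_left htan h6
    _ = _ := by ring

theorem log_exp_div {a τ : ℝ} (ha0 : 0 < a) (ha : a ≤ 1) (hτ : 0 < τ) {w : ℂ} (hw : w ∈ HS) :
    Complex.log (cexp (a * w) / τ) = a * w - Real.log τ := by
  have hpi := Real.pi_pos
  have h2 : (a * w : ℂ).im = a * w.im := by simp
  have hlt : |a * w.im| < Real.pi := by
    rw [abs_mul, abs_of_pos ha0]
    have h1 : a * |w.im| ≤ 1 * |w.im| := mul_le_mul_of_nonneg_right ha (abs_nonneg _)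
    have := hw.2
    linarith
  have h3 : cexp (a * w) / τ = cexp (a * w - Real.log τ) := by
    rw [Complex.exp_sub, ← Complex.ofReal_exp, Real.exp_log hτ]
  rw [h3, Complex.log_exp]
  · rw [sub_im, h2, ofReal_im, sub_zero]
    exact (abs_lt.mp hlt).1
  · rw [sub_im, h2, ofReal_im, sub_zero]
    exact (abs_lt.mp hlt).2.le

theorem norm_exp_div {a τ : ℝ} (hτ : 0 < τ) (w : ℂ) :
    ‖cexp (a * w) / τ‖ = Real.exp (a * w.re) / τ := by
  rw [norm_div, Complex.norm_exp, Complex.norm_real, Real.norm_of_nonneg hτ.le]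
  simp

/-- The weighted sum of the coefficients of `log f`. -/
theorem star_V {b : ℕ → ℝ} (b0 : b 0 = 0)
    (hs : ∀ s : ℝ, 1 / 2 < s → Summable fun n : ℕ => |b n| * (n : ℝ) ^ (-s))
    {f : ℂ → ℂ} (hf : Differentiable ℂ f)
    (hB : DifferentiableOn ℂ (fun z : ℂ => ∑' n : ℕ, (b n : ℂ) * (n : ℂ) ^ (-z))
      {z : ℂ | 1 / 2 < z.re})
    (hexp : ∀ z : ℂ, 1 / 2 < z.re → cexp (∑' n : ℕ, (b n : ℂ) * (n : ℂ) ^ (-z)) = f z)
    (hbd : ∃ K : ℝ, ∀ z : ℂ, 1 ≤ z.re → ‖∑' n : ℕ, (b n : ℂ) * (n : ℂ) ^ (-z)‖ ≤ K)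
    {m : ℕ} {f₁ : ℂ → ℂ} (hf₁ : Differentiable ℂ f₁) (h1 : f₁ 0 ≠ 0)
    (hfac : ∀ z, f z = z ^ m * f₁ z)
    {a φ T' κ : ℝ} (ha0 : 0 < a) (ha : |φ| + Real.pi * a < Real.pi / 2)
    (hT : Real.tan (Real.pi * a) < T')
    (hne : ∀ v ∈ Sc T', f (cexp (φ * I) * v) ≠ 0) (hκ : 0 < κ)
    (hcos : ∀ v ∈ Sc T', κ * ‖v‖ ≤ (cexp (φ * I) * v).re) :
    Tendsto (fun τ : ℝ => (∑' n : ℕ, b n * (Wi a (tz φ (Real.log n / τ))).re)
      + m * Real.log τ) atTop
      (𝓝 (-(m * a * Real.eulerMascheroniConstant) + Real.log ‖f₁ 0‖)) := by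
  have hpi := Real.pi_pos
  have ha2 : a < 1 / 2 := by
    have := abs_nonneg φ
    by_contra hcon
    have h3 : Real.pi * (1 / 2) ≤ Real.pi * a := mul_le_mul_of_nonneg_left (not_lt.mp hcon) hpi.le
    linarith
  have ha1 : a ≤ 1 := by linarith
  have hTpos : 0 < Real.tan (Real.pi * a) := by
    refine Real.tan_pos_of_pos_of_lt_pi_div_two (by positivity) ?_
    have := abs_nonneg φ
    linarith
  obtain ⟨L, c, K, hK, hc, hL, hLB, hest⟩ :=
    region hf hB hexp hbd hf₁ h1 hfac hTpos hT hne hκ hcos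
  obtain ⟨C0, hC00, hC0⟩ := lim_est ha0 ha1
  have herr : Tendsto (fun τ : ℝ => C0 * (K / τ)) atTop (𝓝 (C0 * 0)) :=
    (tendsto_const_nhds.div_atTop tendsto_id).const_mul C0
  rw [mul_zero] at herr
  rw [tendsto_iff_norm_sub_tendsto_zero]
  refine squeeze_zero' (Filter.Eventually.of_forall fun τ => norm_nonneg _) ?_ herr
  filter_upwards [eventually_gt_atTop 0] with τ hτ
  set G : ℂ → ℂ := fun w => L (cexp (a * w) / τ) with hG
  have hGd : DifferentiableOn ℂ G HS := by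
    intro w hw
    have h2 : DifferentiableAt ℂ L (cexp (a * w) / τ) :=
      hL.differentiableAt ((isOpen_Sc _).mem_nhds (exp_mem_Sc ha0 ha2 hτ hw))
    have h3 : DifferentiableAt ℂ (fun w : ℂ => cexp (a * w) / τ) w := by fun_prop
    exact (DifferentiableAt.comp w h2 h3).differentiableWithinAt
  have hGest : ∀ w ∈ HS, ‖G w - (m * (a * w) + (c - m * Real.log τ))‖ ≤
      K / τ * Real.exp (a * w.re) := by
    intro w hw
    have h2 := hest _ (exp_mem_Sc ha0 ha2 hτ hw)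
    rw [log_exp_div ha0 ha1 hτ hw, norm_exp_div hτ] at h2
    have h3 : G w - (m * (a * w) + (c - m * Real.log τ)) =
        L (cexp (a * w) / τ) - (m * (a * w - Real.log τ) + c) := by
      simp only [hG]; ring
    rw [h3]
    refine h2.trans (le_of_eq ?_)
    ring
  have hfub := fubV b0 hs ha0 ha hτ
  obtain ⟨A, hfA, hA1, hA2⟩ := (hfub.and ((eventually_ge_atTop 1).and
    (eventually_large ha0 hκ hτ 1))).exists
  have hGA : ∀ r : ℝ, G ((A : ℂ) + gw r) = ∑' n : ℕ, (b n : ℂ) *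
      (n : ℂ) ^ (-(cexp (φ * I) * (cexp (a * ((A : ℂ) + gw r)) / τ))) := by
    intro r
    have hmem := mem_HS hA1 r
    refine hLB _ (exp_mem_Sc ha0 ha2 hτ hmem) ?_
    have hSc : cexp (a * ((A : ℂ) + gw r)) / τ ∈ Sc T' := by
      have h2 := exp_mem_Sc ha0 ha2 hτ hmem
      have h3 := re_pos_of_mem hTpos h2
      have h4 : |(cexp (a * ((A : ℂ) + gw r)) / τ).im| < Real.tan (Real.pi * a) *
        (cexp (a * ((A : ℂ) + gw r)) / τ).re := h2
      exact h4.trans (mul_lt_mul_of_pos_right hT h3)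
    have h5 := hcos _ hSc
    rw [norm_exp_div hτ] at h5
    have h6 : Real.exp (a * A) ≤ Real.exp (a * ((A : ℂ) + gw r).re) := by
      refine Real.exp_le_exp.mpr (mul_le_mul_of_nonneg_left ?_ ha0.le)
      rw [add_re, ofReal_re, gw_re]
      have := Real.log_nonneg (show (1 : ℝ) ≤ 1 + r ^ 2 by nlinarith [sq_nonneg r])
      linarith
    have h7 : κ * Real.exp (a * A) / τ ≤ κ * (Real.exp (a * ((A : ℂ) + gw r).re) / τ) := by
      rw [mul_div_assoc]
      exact mul_le_mul_of_nonneg_left (div_le_div_of_nonneg_right h6 hτ.le) hκ.le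
    linarith
  have hlim := hC0 G m (c - m * Real.log τ) (K / τ) A hA1 (by positivity) hGd hGest
  have hpi0 : (Real.pi : ℂ) ≠ 0 := by exact_mod_cast hpi.ne'
  simp_rw [hGA] at hlim
  rw [hfA, inv_mul_cancel_left₀ hpi0] at hlim
  have hsum : Summable fun n : ℕ => (b n : ℂ) * Wi a (tz φ (Real.log n / τ)) := by
    refine Summable.of_norm ((summable_Wi b0 hs ha0 ha hτ).congr fun n => ?_)
    rw [norm_mul, Complex.norm_real, Real.norm_eq_abs]
  have hre : (∑' n : ℕ, (b n : ℂ) * Wi a (tz φ (Real.log n / τ))).re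
      = ∑' n : ℕ, b n * (Wi a (tz φ (Real.log n / τ))).re := by
    rw [Complex.re_tsum hsum]
    exact tsum_congr fun n => by rw [Complex.re_ofReal_mul]
  have hfin := (Complex.abs_re_le_norm _).trans hlim
  have hre2 : (-((m : ℂ) * a * Real.eulerMascheroniConstant) + (c - m * Real.log τ)).re =
      -(m * a * Real.eulerMascheroniConstant) + Real.log ‖f₁ 0‖ - m * Real.log τ := by
    rw [add_re, sub_re, hc, neg_re]
    have e1 : ((m : ℂ) * a * Real.eulerMascheroniConstant).re =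
        m * a * Real.eulerMascheroniConstant := by
      rw [← Complex.ofReal_natCast, ← Complex.ofReal_mul, ← Complex.ofReal_mul, ofReal_re]
    have e3 : ((m : ℂ) * (Real.log τ : ℂ)).re = m * Real.log τ := by
      rw [← Complex.ofReal_natCast, ← Complex.ofReal_mul, ofReal_re]
    rw [e1, e3]
    ring
  rw [sub_re, hre, hre2] at hfin
  rw [Real.norm_eq_abs]
  refine le_trans (le_of_eq ?_) hfin
  congr 1
  ring

/-- The product form. -/
theorem star_V_exp {b : ℕ → ℝ} (b0 : b 0 = 0)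
    (hs : ∀ s : ℝ, 1 / 2 < s → Summable fun n : ℕ => |b n| * (n : ℝ) ^ (-s))
    {f : ℂ → ℂ} (hf : Differentiable ℂ f)
    (hB : DifferentiableOn ℂ (fun z : ℂ => ∑' n : ℕ, (b n : ℂ) * (n : ℂ) ^ (-z))
      {z : ℂ | 1 / 2 < z.re})
    (hexp : ∀ z : ℂ, 1 / 2 < z.re → cexp (∑' n : ℕ, (b n : ℂ) * (n : ℂ) ^ (-z)) = f z)
    (hbd : ∃ K : ℝ, ∀ z : ℂ, 1 ≤ z.re → ‖∑' n : ℕ, (b n : ℂ) * (n : ℂ) ^ (-z)‖ ≤ K)
    {m : ℕ} {f₁ : ℂ → ℂ} (hf₁ : Differentiable ℂ f₁) (h1 : f₁ 0 ≠ 0)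
    (hfac : ∀ z, f z = z ^ m * f₁ z)
    {a φ T' κ : ℝ} (ha0 : 0 < a) (ha : |φ| + Real.pi * a < Real.pi / 2)
    (hT : Real.tan (Real.pi * a) < T')
    (hne : ∀ v ∈ Sc T', f (cexp (φ * I) * v) ≠ 0) (hκ : 0 < κ)
    (hcos : ∀ v ∈ Sc T', κ * ‖v‖ ≤ (cexp (φ * I) * v).re) :
    Tendsto (fun τ : ℝ => Real.exp (-∑' n : ℕ, b n * (Wi a (tz φ (Real.log n / τ))).re)
      / τ ^ m) atTop
      (𝓝 (Real.exp (m * a * Real.eulerMascheroniConstant) / ‖f₁ 0‖)) := by
  have h := exp_form (star_V b0 hs hf hB hexp hbd hf₁ h1 hfac ha0 ha hT hne hκ hcos)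
  have hpos : 0 < ‖f₁ 0‖ := norm_pos_iff.mpr h1
  have e : Real.exp (-(-(m * a * Real.eulerMascheroniConstant) + Real.log ‖f₁ 0‖)) =
      Real.exp (m * a * Real.eulerMascheroniConstant) / ‖f₁ 0‖ := by
    rw [neg_add, neg_neg, Real.exp_add, Real.exp_neg (Real.log ‖f₁ 0‖), Real.exp_log hpos,
      div_eq_mul_inv]
  rw [e] at h
  exact h

end Pool.Agent.Helper87.VP
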