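import Mathlib
import Pool.Agent.Helper87.VP.Fu
import Pool.Agent.Helper87.UP.Trunc

set_option autoImplicit false

/-!
# Truncation at `x`, with the scale `(1/2) (log x) ^ a`
-/

open MeasureTheory Set Complex Filter Topology

namespace Pool.Agent.Helper87.VP

open Pool.Agent.Helper87.UP (tendsto_log_nat)

/-- The scale belonging to `x`. -/
noncomputable def sV (a : ℝ) (x : ℕ) : ℝ := 1 / 2 * (Real.log x) ^ a

theorem tendsto_sV {a : ℝ} (ha0 : 0 < a) : Tendsto (sV a) atTop atTop := by
  unfold sV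
  exact ((tendsto_rpow_atTop ha0).comp tendsto_log_nat).const_mul_atTop (by norm_num)

theorem trunc_V {b : ℕ → ℝ} {K : ℝ} (hK : ∀ n : ℕ, |b n| ≤ K * (n : ℝ) ^ (-(1 / 2) : ℝ))
    (h0 : b 0 = 0) {a φ : ℝ} (ha0 : 0 < a) (ha9 : a ≤ 1 / 9)
    (hang : |φ| + Real.pi * a < Real.pi / 2) (hc : 1 / 2 ≤ cs a φ) :
    Tendsto (fun x : ℕ =>
      (∑' n : ℕ, b n * (Wi a (tz φ (Real.log n / sV a x))).re) -
        ∑ n ∈ Finset.Icc 1 x, b n * (Wi a (tz φ (Real.log n / sV a x))).re) atTop (𝓝 0) := by
  have hK0 : 0 ≤ K := by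
    have := (abs_nonneg _).trans (hK 1)
    simpa using this
  have hsum : Summable fun n : ℕ => (n : ℝ) ^ (-(11 / 10) : ℝ) :=
    Real.summable_nat_rpow.mpr (by norm_num)
  set S : ℝ := ∑' n : ℕ, (n : ℝ) ^ (-(11 / 10) : ℝ) with hS
  set δ : ℝ := (4 / 5) ^ 9 with hδ
  have hδ0 : 0 < δ := by positivity
  have hδ1 : δ ≤ 3 / 20 := by rw [hδ]; norm_num
  have hδa : 4 / 5 ≤ δ ^ a := by
    have h1 : δ ^ (1 / 9 : ℝ) ≤ δ ^ a :=
      Real.rpow_le_rpow_of_exponent_ge hδ0 (hδ1.trans (by norm_num)) ha9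
    have h2 : δ ^ (1 / 9 : ℝ) = 4 / 5 := by
      rw [hδ, ← Real.rpow_natCast (4 / 5 : ℝ) 9, ← Real.rpow_mul (by norm_num)]
      norm_num
    linarith
  have key : ∀ᶠ x : ℕ in atTop, ‖(∑' n : ℕ, b n * (Wi a (tz φ (Real.log n / sV a x))).re) -
        ∑ n ∈ Finset.Icc 1 x, b n * (Wi a (tz φ (Real.log n / sV a x))).re‖ ≤
      K * S * Real.exp (-(1 / 20) * Real.log x) := by
    have hlog : ∀ᶠ x : ℕ in atTop, Real.exp 1 / δ ≤ Real.log x :=
      tendsto_log_nat.eventually_ge_atTop _
    filter_upwards [hlog, eventually_ge_atTop 1] with x hlx hx1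
    have hδx : Real.exp 1 ≤ δ * Real.log x := by
      rw [div_le_iff₀ hδ0] at hlx
      linarith
    have hδx0 : 0 < δ * Real.log x := (Real.exp_pos 1).trans_le hδx
    have hlx0 : 0 < Real.log x := pos_of_mul_pos_right hδx0 hδ0.le
    have hxp : (0 : ℝ) < x := by exact_mod_cast hx1
    have hla : 0 < (Real.log x) ^ a := Real.rpow_pos_of_pos hlx0 a
    set τ : ℝ := sV a x with hτd
    have hτ : 0 < τ := by rw [hτd, sV]; positivity
    set A : ℝ := Real.log (δ * Real.log x) with hA
    have hA1 : 1 ≤ A := by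
      rw [hA, Real.le_log_iff_exp_le hδx0]
      exact hδx
    have heA : Real.exp A = δ * Real.log x := Real.exp_log hδx0
    have hs : (4 / 5 : ℝ) ≤ cs a φ * Real.exp (a * A) / τ := by
      have h1 : Real.exp (a * A) = δ ^ a * (Real.log x) ^ a := by
        rw [hA, mul_comm, ← Real.rpow_def_of_pos hδx0, Real.mul_rpow hδ0.le hlx0.le]
      rw [h1, le_div_iff₀ hτ, hτd, sV]
      have h2 : 4 / 5 * (Real.log x) ^ a ≤ δ ^ a * (Real.log x) ^ a :=
        mul_le_mul_of_nonneg_right hδa hla.le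
      have h3 : 1 / 2 * (δ ^ a * (Real.log x) ^ a) ≤ cs a φ * (δ ^ a * (Real.log x) ^ a) :=
        mul_le_mul_of_nonneg_right hc (by positivity)
      linarith
    -- the terms
    have hterm : ∀ n : ℕ, 1 ≤ n → |b n * (Wi a (tz φ (Real.log n / τ))).re| ≤
        K * Real.exp (δ * Real.log x) * (n : ℝ) ^ (-(13 / 10) : ℝ) := by
      intro n hn
      have hnp : (0 : ℝ) < n := by exact_mod_cast hn
      have h1 := (Complex.abs_re_le_norm _).trans (norm_Wi_nat ha0.le hang hτ hA1 hs hn)
      rw [heA] at h1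
      rw [abs_mul]
      calc |b n| * |(Wi a (tz φ (Real.log n / τ))).re|
          ≤ (K * (n : ℝ) ^ (-(1 / 2) : ℝ)) *
              (Real.exp (δ * Real.log x) * (n : ℝ) ^ (-(4 / 5) : ℝ)) :=
            mul_le_mul (hK n) h1 (abs_nonneg _) (by positivity)
        _ = K * Real.exp (δ * Real.log x) *
              ((n : ℝ) ^ (-(1 / 2) : ℝ) * (n : ℝ) ^ (-(4 / 5) : ℝ)) := by ring
        _ = _ := by
            rw [← Real.rpow_add hnp]
            norm_num
    -- summability
    have hsf : Summable fun n : ℕ => b n * (Wi a (tz φ (Real.log n / τ))).re := by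
      have hs5 : Summable fun n : ℕ =>
          K * Real.exp (δ * Real.log x) * (n : ℝ) ^ (-(13 / 10) : ℝ) :=
        (Real.summable_nat_rpow.mpr (by norm_num)).mul_left _
      refine Summable.of_norm_bounded hs5 ?_
      intro n
      rcases Nat.eq_zero_or_pos n with rfl | hn
      · rw [h0, zero_mul, norm_zero]
        positivity
      · rw [Real.norm_eq_abs]
        exact hterm n hn
    have hfin : HasSum (fun n : ℕ => if n ∈ Finset.Icc 1 x then
          b n * (Wi a (tz φ (Real.log n / τ))).re else 0)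
        (∑ n ∈ Finset.Icc 1 x, b n * (Wi a (tz φ (Real.log n / τ))).re) := by
      have h : HasSum (fun n : ℕ =>
          if n ∈ Finset.Icc 1 x then b n * (Wi a (tz φ (Real.log n / τ))).re else 0)
          (∑ n ∈ Finset.Icc 1 x,
            if n ∈ Finset.Icc 1 x then b n * (Wi a (tz φ (Real.log n / τ))).re else 0) :=
        hasSum_sum_of_ne_finset_zero (fun n hn => if_neg hn)
      have e : (∑ n ∈ Finset.Icc 1 x,
            if n ∈ Finset.Icc 1 x then b n * (Wi a (tz φ (Real.log n / τ))).re else 0) =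
          ∑ n ∈ Finset.Icc 1 x, b n * (Wi a (tz φ (Real.log n / τ))).re := by
        refine Finset.sum_congr rfl ?_
        intro n hn
        rw [if_pos hn]
      rwa [e] at h
    have hdiff := hsf.hasSum.sub hfin
    have hb : HasSum (fun n : ℕ => K * Real.exp (-(1 / 20) * Real.log x) *
        (n : ℝ) ^ (-(11 / 10) : ℝ))
        (K * Real.exp (-(1 / 20) * Real.log x) * S) := hsum.hasSum.mul_left _
    rw [← hdiff.tsum_eq]
    refine (tsum_of_norm_bounded hb ?_).trans (le_of_eq (by ring))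
    intro n
    rcases Nat.eq_zero_or_pos n with rfl | hn
    · simp only [h0, zero_mul, ite_self, sub_zero, norm_zero]
      positivity
    · by_cases hm : n ∈ Finset.Icc 1 x
      · rw [if_pos hm, sub_self, norm_zero]
        positivity
      · rw [if_neg hm, sub_zero, Real.norm_eq_abs]
        refine (hterm n hn).trans ?_
        have hnx : x < n := by
          by_contra hcon
          exact hm (Finset.mem_Icc.mpr ⟨hn, not_lt.mp hcon⟩)
        have hnp : (0 : ℝ) < n := by exact_mod_cast hn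
        have h3 : (n : ℝ) ^ (-(13 / 10) : ℝ) =
            (n : ℝ) ^ (-(1 / 5) : ℝ) * (n : ℝ) ^ (-(11 / 10) : ℝ) := by
          rw [← Real.rpow_add hnp]
          norm_num
        have h4 : (n : ℝ) ^ (-(1 / 5) : ℝ) ≤ (x : ℝ) ^ (-(1 / 5) : ℝ) :=
          Real.rpow_le_rpow_of_nonpos hxp (by exact_mod_cast hnx.le) (by norm_num)
        have h5 : Real.exp (δ * Real.log x) * (x : ℝ) ^ (-(1 / 5) : ℝ) ≤
            Real.exp (-(1 / 20) * Real.log x) := by
          rw [Real.rpow_def_of_pos hxp, ← Real.exp_add]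
          refine Real.exp_le_exp.mpr ?_
          have := mul_le_mul_of_nonneg_right hδ1 hlx0.le
          linarith
        rw [h3]
        have h6 : 0 ≤ K * Real.exp (δ * Real.log x) := by positivity
        calc K * Real.exp (δ * Real.log x) *
              ((n : ℝ) ^ (-(1 / 5) : ℝ) * (n : ℝ) ^ (-(11 / 10) : ℝ))
            ≤ K * Real.exp (δ * Real.log x) *
              ((x : ℝ) ^ (-(1 / 5) : ℝ) * (n : ℝ) ^ (-(11 / 10) : ℝ)) := by
              refine mul_le_mul_of_nonneg_left ?_ h6
              exact mul_le_mul_of_nonneg_right h4 (by positivity)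
          _ = K * (Real.exp (δ * Real.log x) * (x : ℝ) ^ (-(1 / 5) : ℝ)) *
              (n : ℝ) ^ (-(11 / 10) : ℝ) := by ring
          _ ≤ K * Real.exp (-(1 / 20) * Real.log x) * (n : ℝ) ^ (-(11 / 10) : ℝ) :=
              mul_le_mul_of_nonneg_right (mul_le_mul_of_nonneg_left h5 hK0) (by positivity)
  have hlim : Tendsto (fun x : ℕ => K * S * Real.exp (-(1 / 20) * Real.log x)) atTop (𝓝 0) := by
    have h1 : Tendsto (fun L : ℝ => -(1 / 20) * L) atTop atBot :=
      tendsto_id.const_mul_atTop_of_neg (by norm_num)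
    have h7 := (Real.tendsto_exp_atBot.comp (h1.comp tendsto_log_nat)).const_mul (K * S)
    simpa [Function.comp_def] using h7
  exact squeeze_zero_norm' key hlim

end Pool.Agent.Helper87.VP
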