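import Mathlib
import Pool.Agent.Helper87.VP.StarV
import Pool.Agent.Helper87.VP.AbelV
import Pool.Agent.Helper87.VP.TruncV
import Pool.Agent.Helper87.VP.SecV
import Pool.Agent.Helper54.UP.Cmp
import Pool.Agent.Helper95.UP.P7
import Pool.Agent.Helper74.UP.Book

set_option autoImplicit false

/-!
# The product form with turned weights
-/

open MeasureTheory Set Complex Filter Topology

namespace Pool.Agent.Helper87.VP

open Pool.Agent.Helper5.UP
open Pool.Agent.Helper9.BSD Pool.Agent.Helper9.BSDL2 Pool.Agent.Helper56.BSD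
open Pool.Agent.Helper99.CM

/-- The weight of `n` for the cut-off `x`. -/
noncomputable def wV (a : ℝ) (x n : ℕ) : ℝ :=
  (Ws a (2 * cexp (2 * Real.pi * a * I) * Real.log n / ((Real.log x) ^ a : ℝ))).re

theorem wV_eq {a : ℝ} (ha0 : 0 < a) (ha1 : a < 1) (x n : ℕ) :
    wV a x n = (Wi a (tz (2 * Real.pi * a) (Real.log n / sV a x))).re := by
  rw [wV, Wi_eq_Ws ha0 ha1, tz, sV]
  congr 2
  push_cast
  rw [div_mul_eq_div_div]
  ring

/-- The numerical facts on the angles. -/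
theorem angles {a : ℝ} (ha0 : 0 < a) (ha9 : a ≤ 1 / 9) :
    |2 * Real.pi * a| + Real.pi * a < Real.pi / 2 ∧ 1 / 2 ≤ cs a (2 * Real.pi * a) ∧
    Real.tan (Real.pi * a) < Real.tan (3 * Real.pi * a / 2) ∧
    0 < Real.cos (2 * Real.pi * a + 3 * Real.pi * a / 2) ∧
    0 < 3 * Real.pi * a / 2 ∧ 3 * Real.pi * a / 2 < Real.pi / 2 := by
  have hpi := Real.pi_pos
  have h0 : 0 < Real.pi * a := by positivity
  have h9 : Real.pi * a ≤ Real.pi / 9 := by
    have := mul_le_mul_of_nonneg_left ha9 hpi.le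
    linarith
  have habs : |2 * Real.pi * a| = 2 * (Real.pi * a) := by
    rw [abs_of_pos (by positivity)]
    ring
  refine ⟨by rw [habs]; linarith, ?_, ?_, ?_, by linarith, by linarith⟩
  · rw [cs, habs, ← Real.cos_pi_div_three]
    exact Real.cos_le_cos_of_nonneg_of_le_pi (by linarith) (by linarith) (by linarith)
  · exact Real.tan_lt_tan_of_lt_of_lt_pi_div_two (by linarith) (by linarith) (by linarith)
  · exact Real.cos_pos_of_mem_Ioo ⟨by linarith, by linarith⟩

/-- The hypothesis on the zeros gives the hypotheses of the star theorem. -/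
theorem star_W (W : WeierstrassCurve ℤ) {F : ℂ → ℂ} {m : ℕ} (h : IsCont W F m) {a : ℝ}
    (ha0 : 0 < a) (ha9 : a ≤ 1 / 9)
    (hz : ∀ r θ : ℝ, 0 < r → Real.pi * a / 2 < θ → θ < 7 * Real.pi * a / 2 →
      F (1 + r * cexp (θ * I)) ≠ 0) :
    Tendsto (fun τ : ℝ => (∑' n : ℕ, lam W n * (Wi a (tz (2 * Real.pi * a)
      (Real.log n / τ))).re) + m * Real.log τ) atTop
      (𝓝 (-(m * a * Real.eulerMascheroniConstant) +
        Real.log ‖iteratedDeriv m F 1 / m.factorial‖)) := by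
  obtain ⟨g1, g2, g3, g4, g5, g6⟩ := angles ha0 ha9
  obtain ⟨hf, -, hB, hexp, hbd, f1, hf1, hf10, hlead, hfac⟩ := Helper95.UP.input W h
  rw [← hlead]
  refine star_V (f := fun z => F (1 + z)) (Helper95.UP.lam_zero W)
    (fun s hs => Helper95.UP.lam_summ W hs) hf hB hexp hbd hf1 hf10 hfac ha0 g1 g3
    (fun v hv => ?_) g4 (fun v hv => sec_cos g5 g6 (by
      have := Real.pi_pos
      have : 0 < Real.pi * a := by positivity
      linarith) (by
      have hpi := Real.pi_pos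
      have := mul_le_mul_of_nonneg_left ha9 hpi.le
      linarith) hv)
  obtain ⟨hn, θ, h1, h2, he⟩ := sec_turn (φ := 2 * Real.pi * a) g5 g6 hv
  show F (1 + cexp (((2 * Real.pi * a : ℝ) : ℂ) * I) * v) ≠ 0
  rw [he]
  exact hz _ θ hn (by linarith) (by linarith)

/-- From the sums over all `n` to the sums up to `x`. -/
theorem fin_V {b : ℕ → ℝ} {K : ℝ} (hK : ∀ n : ℕ, |b n| ≤ K * (n : ℝ) ^ (-(1 / 2) : ℝ))
    (h0 : b 0 = 0) {a : ℝ} (ha0 : 0 < a) (ha9 : a ≤ 1 / 9) {m : ℕ} {l : ℝ}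
    (h : Tendsto (fun τ : ℝ => (∑' n : ℕ, b n * (Wi a (tz (2 * Real.pi * a)
      (Real.log n / τ))).re) + m * Real.log τ) atTop (𝓝 l)) :
    Tendsto (fun x : ℕ => Real.exp (-∑ n ∈ Finset.Icc 1 x, b n * wV a x n) /
      (Real.log x) ^ (a * m)) atTop (𝓝 (Real.exp (-l) / 2 ^ m)) := by
  obtain ⟨g1, g2, -⟩ := angles ha0 ha9
  have ha1 : a < 1 := by linarith
  have h1 := (exp_form h).comp (tendsto_sV ha0)
  have h2 := (Real.continuous_exp.tendsto _).comp (trunc_V hK h0 ha0 ha9 g1 g2)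
  rw [Real.exp_zero] at h2
  have h3 := (h1.mul h2).div_const ((2 : ℝ) ^ m)
  rw [mul_one] at h3
  refine h3.congr' ?_
  have hl := Helper87.UP.tendsto_log_nat.eventually_gt_atTop 0
  filter_upwards [hl] with x hx
  have hla : 0 < (Real.log x) ^ a := Real.rpow_pos_of_pos hx a
  have e1 : ∑ n ∈ Finset.Icc 1 x, b n * wV a x n =
      ∑ n ∈ Finset.Icc 1 x, b n * (Wi a (tz (2 * Real.pi * a) (Real.log n / sV a x))).re :=
    Finset.sum_congr rfl fun n _ => by rw [wV_eq ha0 ha1]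
  have e2 : (Real.log x) ^ (a * m) = 2 ^ m * (sV a x) ^ m := by
    rw [Real.rpow_mul hx.le, Real.rpow_natCast, ← mul_pow, sV]
    congr 1
    ring
  rw [e1, e2]
  simp only [Function.comp_apply]
  set X : ℝ := ∑' n : ℕ, b n * (Wi a (tz (2 * Real.pi * a) (Real.log n / sV a x))).re
  set Y : ℝ := ∑ n ∈ Finset.Icc 1 x, b n * (Wi a (tz (2 * Real.pi * a) (Real.log n / sV a x))).re
  have e3 : Real.exp (-Y) = Real.exp (-X) * Real.exp (X - Y) := by
    rw [← Real.exp_add]; congr 1; ring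
  have e4 : sV a x ^ m ≠ 0 := by
    have : 0 < sV a x := by rw [sV]; positivity
    positivity
  rw [e3]
  field_simp

/-- The product over the good primes as an exponential. -/
theorem prod_V (W : WeierstrassCurve ℤ) (w : ℕ → ℝ) (x : ℕ) :
    ∏ p ∈ (Finset.Icc 1 x).filter (fun p : ℕ => p.Prime ∧ ¬ (p : ℤ) ∣ W.Δ),
      ((numPts W p : ℝ) / p) ^ (w p) = Real.exp (∑ n ∈ Finset.Icc 1 x, cc W n * w n) := by
  have h1 : ∑ n ∈ Finset.Icc 1 x, cc W n * w n
      = ∑ n ∈ (Finset.Icc 1 x).filter (fun p : ℕ => p.Prime ∧ ¬ (p : ℤ) ∣ W.Δ),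
        cc W n * w n := by
    rw [Finset.sum_filter]
    refine Finset.sum_congr rfl fun n _ => ?_
    split_ifs with h
    · rfl
    · have : cc W n = 0 := by
        unfold cc
        rw [if_neg h]
      simp [this]
  rw [h1, Real.exp_sum]
  refine Finset.prod_congr rfl fun p hp => ?_
  obtain ⟨_, hp1, hp2⟩ := Finset.mem_filter.mp hp
  exact (Helper74.UP.exp_cc_mul hp1 hp2 _).symm

/-- The star product with turned weights. -/
theorem star_fin (W : WeierstrassCurve ℤ) {F : ℂ → ℂ} {m : ℕ} (h : IsCont W F m) {a : ℝ}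
    (ha0 : 0 < a) (ha9 : a ≤ 1 / 9)
    (hz : ∀ r θ : ℝ, 0 < r → Real.pi * a / 2 < θ → θ < 7 * Real.pi * a / 2 →
      F (1 + r * cexp (θ * I)) ≠ 0) :
    Tendsto (fun x : ℕ => Real.exp (-∑ n ∈ Finset.Icc 1 x, lam W n * wV a x n) /
      (Real.log x) ^ (a * m)) atTop
      (𝓝 (Real.exp (a * m * Real.eulerMascheroniConstant) /
        (2 ^ m * ‖iteratedDeriv m F 1 / m.factorial‖))) := by
  have h1 := fin_V (Helper95.UP.abs_lam_le_rpow W) (Helper95.UP.lam_zero W) ha0 ha9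
    (star_W W h ha0 ha9 hz)
  obtain ⟨-, -, -, -, -, f1, -, hf10, hlead, -⟩ := Helper95.UP.input W h
  have hpos : 0 < ‖iteratedDeriv m F 1 / m.factorial‖ := by
    rw [← hlead]
    exact norm_pos_iff.mpr hf10
  have e : Real.exp (-(-(m * a * Real.eulerMascheroniConstant) +
      Real.log ‖iteratedDeriv m F 1 / m.factorial‖)) / 2 ^ m =
      Real.exp (a * m * Real.eulerMascheroniConstant) /
        (2 ^ m * ‖iteratedDeriv m F 1 / m.factorial‖) := by
    rw [neg_add, neg_neg, Real.exp_add, Real.exp_neg (Real.log _), Real.exp_log hpos,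
      mul_comm (m : ℝ) a]
    field_simp
  rw [e] at h1
  exact h1

/-- The sum of the coefficients `cc`. -/
theorem cc_W (W : WeierstrassCurve ℤ) (hD : W.Δ ≠ 0) (hS : SqWin W) {F : ℂ → ℂ} {m : ℕ}
    (h : IsCont W F m) {a : ℝ} (ha0 : 0 < a) (ha9 : a ≤ 1 / 9)
    (hz : ∀ r θ : ℝ, 0 < r → Real.pi * a / 2 < θ → θ < 7 * Real.pi * a / 2 →
      F (1 + r * cexp (θ * I)) ≠ 0) :
    Tendsto (fun τ : ℝ => (∑' n : ℕ, (-cc W n) * (Wi a (tz (2 * Real.pi * a)
      (Real.log n / τ))).re) + m * Real.log τ) atTop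
      (𝓝 (-(m * a * Real.eulerMascheroniConstant) +
        Real.log ‖iteratedDeriv m F 1 / m.factorial‖ - Real.log (√2 / badProd W))) := by
  obtain ⟨g1, -⟩ := angles ha0 ha9
  have h1 := star_W W h ha0 ha9 hz
  have h2 := abel_V (by rw [Helper95.UP.cc_zero, Helper95.UP.lam_zero, add_zero])
    (Helper54.UP.sum_cc_lam W hD hS) ha0 g1
  have hb : ∀ {b : ℕ → ℝ} {K : ℝ}, (∀ n : ℕ, |b n| ≤ K * (n : ℝ) ^ (-(1 / 2) : ℝ)) → b 0 = 0 →
      ∀ τ : ℝ, 0 < τ → Summable fun n : ℕ => b n * (Wi a (tz (2 * Real.pi * a)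
        (Real.log n / τ))).re := by
    intro b K hK b0 τ hτ
    refine Summable.of_norm_bounded (summable_Wi b0
      (fun s hs => Helper95.UP.summable_of_bound hK hs) ha0 g1 hτ) fun n => ?_
    rw [norm_mul, Real.norm_eq_abs]
    exact mul_le_mul_of_nonneg_left (Complex.abs_re_le_norm _) (abs_nonneg _)
  refine (h1.sub h2).congr' ?_
  filter_upwards [eventually_gt_atTop 0] with τ hτ
  have s1 := hb (Helper95.UP.abs_lam_le_rpow W) (Helper95.UP.lam_zero W) τ hτ
  have s2 := hb (Helper95.UP.abs_cc_le_rpow W) (Helper95.UP.cc_zero W) τ hτ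
  have e1 : ∑' n : ℕ, (cc W n + lam W n) * (Wi a (tz (2 * Real.pi * a) (Real.log n / τ))).re =
      (∑' n : ℕ, cc W n * (Wi a (tz (2 * Real.pi * a) (Real.log n / τ))).re) +
      ∑' n : ℕ, lam W n * (Wi a (tz (2 * Real.pi * a) (Real.log n / τ))).re := by
    rw [← s2.tsum_add s1]
    exact tsum_congr fun n => by ring
  have e2 : ∑' n : ℕ, (-cc W n) * (Wi a (tz (2 * Real.pi * a) (Real.log n / τ))).re =
      -∑' n : ℕ, cc W n * (Wi a (tz (2 * Real.pi * a) (Real.log n / τ))).re := by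
    rw [← tsum_neg]
    exact tsum_congr fun n => by ring
  rw [e1, e2]
  ring

/-- The product over the good primes with turned weights. -/
theorem prod_fin_V (W : WeierstrassCurve ℤ) (hD : W.Δ ≠ 0) (hS : SqWin W) {F : ℂ → ℂ} {m : ℕ}
    (h : IsCont W F m) {a : ℝ} (ha0 : 0 < a) (ha9 : a ≤ 1 / 9)
    (hz : ∀ r θ : ℝ, 0 < r → Real.pi * a / 2 < θ → θ < 7 * Real.pi * a / 2 →
      F (1 + r * cexp (θ * I)) ≠ 0) :
    Tendsto (fun x : ℕ => (∏ p ∈ (Finset.Icc 1 x).filter (fun p : ℕ => p.Prime ∧ ¬ (p : ℤ) ∣ W.Δ),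
      ((numPts W p : ℝ) / p) ^ (wV a x p)) / (Real.log x) ^ (a * m)) atTop
      (𝓝 (√2 / badProd W * (Real.exp (a * m * Real.eulerMascheroniConstant) /
        (2 ^ m * ‖iteratedDeriv m F 1 / m.factorial‖)))) := by
  have h0 : -cc W 0 = 0 := by rw [Helper95.UP.cc_zero, neg_zero]
  have h1 := fin_V (b := fun n => -cc W n) (K := 5)
    (fun n => by rw [abs_neg]; exact Helper95.UP.abs_cc_le_rpow W n) h0 ha0 ha9
    (cc_W W hD hS h ha0 ha9 hz)
  obtain ⟨-, -, -, -, -, f1, -, hf10, hlead, -⟩ := Helper95.UP.input W h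
  have hpos : 0 < ‖iteratedDeriv m F 1 / m.factorial‖ := by
    rw [← hlead]
    exact norm_pos_iff.mpr hf10
  have hbp : 0 < badProd W := badProd_pos W hD
  have hq : 0 < √2 / badProd W := by positivity
  have e : Real.exp (-(-(m * a * Real.eulerMascheroniConstant) +
      Real.log ‖iteratedDeriv m F 1 / m.factorial‖ - Real.log (√2 / badProd W))) / 2 ^ m =
      √2 / badProd W * (Real.exp (a * m * Real.eulerMascheroniConstant) /
        (2 ^ m * ‖iteratedDeriv m F 1 / m.factorial‖)) := by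
    have e2 : -(-(m * a * Real.eulerMascheroniConstant) +
      Real.log ‖iteratedDeriv m F 1 / m.factorial‖ - Real.log (√2 / badProd W)) =
      Real.log (√2 / badProd W) + a * m * Real.eulerMascheroniConstant +
        -Real.log ‖iteratedDeriv m F 1 / m.factorial‖ := by ring
    rw [e2, Real.exp_add, Real.exp_add, Real.exp_neg (Real.log _), Real.exp_log hpos,
      Real.exp_log hq]
    field_simp
  rw [e] at h1
  refine h1.congr fun x => ?_
  rw [prod_V]
  congr 2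
  rw [← Finset.sum_neg_distrib]
  exact Finset.sum_congr rfl fun n _ => by ring

/-- For every curve the hypothesis on the zeros holds for all small `a`. -/
theorem exists_aV (W : WeierstrassCurve ℤ) {F : ℂ → ℂ} {m : ℕ} (h : IsCont W F m) :
    ∃ a0 : ℝ, 0 < a0 ∧ a0 ≤ 2 / 21 ∧ ∀ a : ℝ, a ≤ a0 → ∀ r θ : ℝ, 0 < r → 0 < θ →
      θ < 7 * Real.pi * a / 2 → F (1 + r * cexp (θ * I)) ≠ 0 := by
  obtain ⟨hf, hne, -⟩ := Helper95.UP.input W h
  exact exists_a (f := fun z => F (1 + z)) hf hne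

end Pool.Agent.Helper87.VP
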